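import Mathlib

/-! The data of one block used in the proof that there is no `C^∞` norm. -/

set_option autoImplicit false

namespace Pool.Agent.Helper23.PZ

open Finset

/-- The facts on one block `F` with parameters `p` (number of values of a class), `r` (number of
classes), `Λ`, `t` (strength of the design). -/
structure BlockData (F : Type) [NormedAddCommGroup F] [NormedSpace ℝ F] (p r Λ t : ℕ) where
  Ω : Type
  V : Type
  [fΩ : Fintype Ω]
  [dΩ : DecidableEq Ω]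
  [fV : Fintype V]
  [dV : DecidableEq V]
  cls : Fin r → Ω → V
  J : (Ω → ℝ) →ₗ[ℝ] F
  card_V : Fintype.card V = p
  card_Ω : Fintype.card Ω = p ^ (t + 1)
  card_clique : ∀ c v, (univ.filter fun i => cls c i = v).card = p ^ t
  agree : ∀ i j, i ≠ j → (univ.filter fun c => cls c i = cls c j).card ≤ t
  norm_le : ∀ x : Ω → ℝ, (∀ i, |x i| ≤ 1) → ‖J x‖ ^ 4 ≤ 1 + (r : ℝ) * Λ
  norm_clique : ∀ c v (ρ : Ω → ℝ), (∀ i, ρ i = 1 ∨ ρ i = -1) →
    (r : ℝ) / (4 * p) ≤ ‖J (fun i => if cls c i = v then ρ i else 0)‖ ^ 4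
  norm_point : ∀ i, ‖J (Pi.single i 1)‖ ^ 4 ≤ 2 / (p : ℝ) ^ (t + 1)
  norm_two : ∀ c c', c ≠ c' → ∀ v v' (ρ : Ω → ℝ), (∀ i, ρ i = 1 ∨ ρ i = -1) →
    ‖J (fun i => if cls c i = v ∧ cls c' i = v' then ρ i else 0)‖ ^ 4 ≤ 2 / (p : ℝ) ^ 2

end Pool.Agent.Helper23.PZ
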