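import Mathlib
import Pool.Agent.Helper15.SR.Taylor

/-! Taylor expansion of the second derivative of a convex function. -/

set_option autoImplicit false
set_option linter.unusedSectionVars false

namespace Pool.Agent.Helper23.PZ

open Set Filter Topology

/-- the tuple `(h, ..., h, v, v)` with `j` copies of `h` -/
def tup {Y : Type*} (j : ℕ) (h v : Y) : Fin (j + 2) → Y := fun k => if k.val < j then h else v

theorem tail_tup {Y : Type*} (j : ℕ) (h v : Y) :
    (Fin.tail (n := j + 2) (α := fun _ => Y) (tup (j + 1) h v)) = tup j h v := by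
  funext k
  simp only [Fin.tail, tup, Fin.val_succ]
  congr 1
  simp

theorem tup_succ_zero {Y : Type*} (j : ℕ) (h v : Y) : tup (j + 1) h v 0 = h := by
  simp [tup]

theorem norm_tup_prod {Y : Type*} [NormedAddCommGroup Y] (j : ℕ) (h v : Y) :
    ∏ k, ‖tup j h v k‖ = ‖h‖ ^ j * ‖v‖ ^ 2 := by
  induction j with
  | zero => simp [tup]
  | succ j ih =>
    have h1 := Fin.prod_univ_succ (n := j + 2) (fun k => ‖tup (j + 1) h v k‖)
    have h2 : ∀ k : Fin (j + 2), ‖tup (j + 1) h v k.succ‖ = ‖tup j h v k‖ := by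
      intro k
      have := congrFun (tail_tup j h v) k
      simp only [Fin.tail] at this
      rw [← this]
    calc ∏ k, ‖tup (j + 1) h v k‖ = ‖tup (j + 1) h v 0‖ * ∏ k : Fin (j + 2), ‖tup (j + 1) h v k.succ‖ := h1
      _ = ‖h‖ * ∏ k : Fin (j + 2), ‖tup j h v k‖ := by
        rw [tup_succ_zero]; congr 1; exact Finset.prod_congr rfl fun k _ => h2 k
      _ = _ := by rw [ih]; ring

/-- Taylor's formula with remainder on `[0, 1]` for a chain of functions -/
theorem taylor1d (n : ℕ) : ∀ (g : ℕ → ℝ → ℝ) (B : ℝ),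
    (∀ j < n, ∀ s ∈ Icc (0:ℝ) 1, HasDerivAt (g j) (g (j + 1) s) s) →
    (∀ s ∈ Icc (0:ℝ) 1, |g n s| ≤ B) →
    ∀ s ∈ Icc (0:ℝ) 1, |g 0 s - ∑ j ∈ Finset.range n, ((j.factorial : ℝ))⁻¹ * s ^ j * g j 0| ≤
      B * s ^ n / n.factorial := by
  induction n with
  | zero =>
    intro g B _ hB s hs
    simpa using hB s hs
  | succ n ih =>
    intro g B hd hB s hs
    have ih' := ih (fun j => g (j + 1)) B (fun j hj s hs => hd (j + 1) (by omega) s hs) hB
    -- `f s = g 0 s - Σ ...`
    set f : ℝ → ℝ := fun s => g 0 s - ∑ j ∈ Finset.range (n + 1), ((j.factorial : ℝ))⁻¹ * s ^ j * g j 0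
      with hf
    have hder : ∀ s ∈ Icc (0:ℝ) 1, HasDerivAt f
        (g 1 s - ∑ j ∈ Finset.range n, ((j.factorial : ℝ))⁻¹ * s ^ j * g (j + 1) 0) s := by
      intro s hs
      have h1 := hd 0 (by omega) s hs
      have h2 : HasDerivAt (fun s : ℝ => ∑ j ∈ Finset.range (n + 1),
          ((j.factorial : ℝ))⁻¹ * s ^ j * g j 0)
          (∑ j ∈ Finset.range n, ((j.factorial : ℝ))⁻¹ * s ^ j * g (j + 1) 0) s := by
        have h3 : (fun s : ℝ => ∑ j ∈ Finset.range (n + 1), ((j.factorial : ℝ))⁻¹ * s ^ j * g j 0) =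
            fun s : ℝ => (∑ j ∈ Finset.range n,
              ((((j + 1).factorial : ℕ) : ℝ))⁻¹ * s ^ (j + 1) * g (j + 1) 0) + g 0 0 := by
          funext s
          rw [Finset.sum_range_succ']
          simp
        rw [h3]
        apply HasDerivAt.add_const
        apply HasDerivAt.fun_sum
        intro j _
        have h4 : HasDerivAt (fun s : ℝ => s ^ (j + 1)) ((j + 1 : ℕ) * s ^ j) s := by
          simpa using hasDerivAt_pow (j + 1) s
        have h5 := ((h4.const_mul ((((j + 1).factorial : ℕ) : ℝ))⁻¹).mul_const (g (j + 1) 0))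
        refine h5.congr_deriv ?_
        rw [Nat.factorial_succ]
        push_cast
        have : ((j : ℝ) + 1) ≠ 0 := by positivity
        have : ((j.factorial : ℕ) : ℝ) ≠ 0 := by positivity
        field_simp
      exact h1.sub h2
    have hf0 : f 0 = 0 := by
      simp only [hf]
      rw [Finset.sum_range_succ']
      simp
    have hbd : ∀ s ∈ Icc (0:ℝ) 1,
        |g 1 s - ∑ j ∈ Finset.range n, ((j.factorial : ℝ))⁻¹ * s ^ j * g (j + 1) 0| ≤
        B * s ^ n / n.factorial := fun s hs => ih' s hs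
    have hq : ∀ s : ℝ, HasDerivAt (fun s : ℝ => B * s ^ (n + 1) / (n + 1).factorial)
        (B * s ^ n / n.factorial) s := by
      intro s
      have h4 : HasDerivAt (fun s : ℝ => s ^ (n + 1)) ((n + 1 : ℕ) * s ^ n) s := by
        simpa using hasDerivAt_pow (n + 1) s
      have h5 := (h4.const_mul B).div_const (((n + 1).factorial : ℕ) : ℝ)
      refine h5.congr_deriv ?_
      rw [Nat.factorial_succ]
      push_cast
      have : ((n : ℝ) + 1) ≠ 0 := by positivity
      have : ((n.factorial : ℕ) : ℝ) ≠ 0 := by positivity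
      field_simp
    -- monotonicity of `q ± f`
    have hmono : ∀ σ : ℝ, |σ| = 1 → MonotoneOn
        (fun s : ℝ => B * s ^ (n + 1) / (n + 1).factorial - σ * f s) (Icc 0 1) := by
      intro σ hσ
      apply monotoneOn_of_deriv_nonneg (convex_Icc 0 1)
      · intro s hs
        exact ((hq s).sub ((hder s hs).const_mul σ)).continuousAt.continuousWithinAt
      · intro s hs
        exact ((hq s).sub ((hder s (interior_subset hs)).const_mul σ)).differentiableAt.differentiableWithinAt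
      · intro s hs
        have h1 := (hq s).sub ((hder s (interior_subset hs)).const_mul σ)
        have h1' : deriv (fun s : ℝ => B * s ^ (n + 1) / (n + 1).factorial - σ * f s) s = _ := h1.deriv
        rw [h1']
        have h2 := hbd s (interior_subset hs)
        have h3 : |σ * (g 1 s - ∑ j ∈ Finset.range n, ((j.factorial : ℝ))⁻¹ * s ^ j * g (j + 1) 0)| ≤
            B * s ^ n / n.factorial := by
          rw [abs_mul, hσ, one_mul]; exact h2
        have := (abs_le.1 h3).2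
        linarith
    have h0 : (0:ℝ) ∈ Icc (0:ℝ) 1 := ⟨le_rfl, zero_le_one⟩
    have m1 := hmono 1 (by simp) h0 hs hs.1
    have m2 := hmono (-1) (by simp) h0 hs hs.1
    simp only [hf0] at m1 m2
    simp only [mul_zero, sub_zero, ne_eq, Nat.add_eq_zero_iff, one_ne_zero, and_false,
      not_false_eq_true, zero_pow, zero_div] at m1 m2
    rw [abs_le]
    constructor <;> linarith

variable {Y : Type*} [NormedAddCommGroup Y] [NormedSpace ℝ Y]

theorem second_nonneg {N : Y → ℝ} (hadd : ∀ x y, N (x + y) ≤ N x + N y)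
    (hsmul : ∀ (t : ℝ) (x : Y), N (t • x) = |t| * N x) {x : Y} (hN : ContDiffAt ℝ 2 N x) (v : Y) :
    0 ≤ iteratedFDeriv ℝ 2 N x (fun _ => v) := by
  by_contra hcon
  push Not at hcon
  set a := iteratedFDeriv ℝ 2 N x (fun _ => v) with ha
  -- `v ≠ 0`
  have hv : v ≠ 0 := by
    rintro rfl
    have : a = 0 := by
      rw [ha]
      exact (iteratedFDeriv ℝ 2 N x).map_zero
    linarith
  have hvn : 0 < ‖v‖ := norm_pos_iff.2 hv
  have hN' : ContDiffAt ℝ ((1 + 1 : ℕ) : WithTop ℕ∞) N x := by exact_mod_cast hN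
  obtain ⟨r, hr, hT⟩ := Pool.Agent.Helper15.SR.taylor_at (n := 1) hN'
    (show 0 < -a / (4 * ‖v‖ ^ 2) by apply div_pos; linarith; positivity)
  set t : ℝ := r / ‖v‖ with ht
  have htpos : 0 < t := by positivity
  have h1 := hT (t • v) (by
    rw [norm_smul, Real.norm_of_nonneg htpos.le, ht, div_mul_cancel₀ _ hvn.ne'])
  have h2 := hT ((-t) • v) (by
    rw [norm_smul, norm_neg, Real.norm_of_nonneg htpos.le, ht, div_mul_cancel₀ _ hvn.ne'])
  have e0 : ∀ w : Y, iteratedFDeriv ℝ 0 N x (fun _ => w) = N x := fun w => by simp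
  have e1 : ∀ s : ℝ, iteratedFDeriv ℝ 1 N x (fun _ => s • v) =
      s * iteratedFDeriv ℝ 1 N x (fun _ => v) := fun s => by
    have := (iteratedFDeriv ℝ 1 N x).map_smul_univ (fun _ => s) (fun _ => v)
    rw [this, Finset.prod_const, Finset.card_univ, Fintype.card_fin, smul_eq_mul, pow_one]
  have e2 : ∀ s : ℝ, iteratedFDeriv ℝ 2 N x (fun _ => s • v) = s ^ 2 * a := fun s => by
    have := (iteratedFDeriv ℝ 2 N x).map_smul_univ (fun _ => s) (fun _ => v)
    rw [this, Finset.prod_const, Finset.card_univ, Fintype.card_fin, smul_eq_mul]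
  simp only [Finset.sum_range_succ, Finset.sum_range_zero, e0, e1, e2] at h1 h2
  simp only [Nat.factorial] at h1 h2
  have hN2 : 2 * N x ≤ N (x + t • v) + N (x + (-t) • v) := by
    have := hadd (x + t • v) (x + (-t) • v)
    have e : x + t • v + (x + (-t) • v) = (2:ℝ) • x := by
      rw [neg_smul, two_smul]; abel
    rw [e, hsmul] at this
    simpa using this
  have n1 : ‖t • v‖ ^ (1 + 1) = t ^ 2 * ‖v‖ ^ 2 := by
    rw [norm_smul, Real.norm_of_nonneg htpos.le]; ring
  have n2 : ‖(-t) • v‖ ^ (1 + 1) = t ^ 2 * ‖v‖ ^ 2 := by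
    rw [norm_smul, norm_neg, Real.norm_of_nonneg htpos.le]; ring
  rw [n1] at h1
  rw [n2] at h2
  have e3 : -a / (4 * ‖v‖ ^ 2) * (t ^ 2 * ‖v‖ ^ 2) = -a * t ^ 2 / 4 := by
    field_simp
  rw [e3] at h1 h2
  have h1' := (abs_le.1 h1).2
  have h2' := (abs_le.1 h2).2
  push_cast at h1' h2'
  have hpos : 0 < t ^ 2 := by positivity
  nlinarith

theorem tup_zero_eq {Y : Type*} (h v : Y) : tup 0 h v = fun _ => v := by
  funext k
  simp [tup]

theorem natCast_ne_infty (m : ℕ) : ((m : ℕ) : WithTop ℕ∞) ≠ ((⊤ : ℕ∞) : WithTop ℕ∞) := by simp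

/-- the basic inequality -/
theorem star {N : Y → ℝ} (hadd : ∀ x y, N (x + y) ≤ N x + N y)
    (hsmul : ∀ (t : ℝ) (x : Y), N (t • x) = |t| * N x) (x₀ : Y) (n : ℕ)
    (hN : ContDiffAt ℝ ((n + 2 : ℕ) : WithTop ℕ∞) N x₀) :
    ∃ r > 0, ∃ M : ℝ, 0 ≤ M ∧ ∀ h v : Y, ‖h‖ ≤ r →
      0 ≤ ∑ j ∈ Finset.range n, ((j.factorial : ℝ))⁻¹ * iteratedFDeriv ℝ (j + 2) N x₀ (tup j h v) +
        M * ‖h‖ ^ n * ‖v‖ ^ 2 := by
  have hev : ∀ᶠ z in 𝓝 x₀, ContDiffAt ℝ ((n + 2 : ℕ) : WithTop ℕ∞) N z :=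
    hN.eventually (natCast_ne_infty _)
  have hcont : ContinuousAt (iteratedFDeriv ℝ (n + 2) N) x₀ :=
    (hN.iteratedFDeriv_right (i := n + 2) (m := 0) (by simp)).continuousAt
  have hev2 : ∀ᶠ z in 𝓝 x₀, ‖iteratedFDeriv ℝ (n + 2) N z‖ < ‖iteratedFDeriv ℝ (n + 2) N x₀‖ + 1 :=
    hcont.norm.eventually_lt_const (lt_add_one _)
  obtain ⟨r, hr, hball⟩ := Metric.eventually_nhds_iff_ball.1 (hev.and hev2)
  set M := ‖iteratedFDeriv ℝ (n + 2) N x₀‖ + 1 with hM
  have hM0 : 0 ≤ M := by positivity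
  refine ⟨r / 2, by positivity, M, hM0, fun h v hh => ?_⟩
  have hmem : ∀ t : ℝ, t ∈ Icc (0 : ℝ) 1 → x₀ + t • h ∈ Metric.ball x₀ r := by
    intro t ht
    rw [mem_ball_iff_norm, add_sub_cancel_left, norm_smul, Real.norm_eq_abs, abs_of_nonneg ht.1]
    nlinarith [ht.2, norm_nonneg h]
  have hT := taylor1d n (fun j s => iteratedFDeriv ℝ (j + 2) N (x₀ + s • h) (tup j h v))
    (M * ‖h‖ ^ n * ‖v‖ ^ 2) ?_ ?_ 1 ⟨zero_le_one, le_rfl⟩
  · simp only [one_pow, mul_one, zero_smul, add_zero, one_smul] at hT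
    have h2 : 0 ≤ iteratedFDeriv ℝ (0 + 2) N (x₀ + h) (tup 0 h v) := by
      rw [tup_zero_eq]
      apply second_nonneg hadd hsmul
      have := (hball _ (hmem 1 ⟨zero_le_one, le_rfl⟩)).1
      rw [one_smul] at this
      exact this.of_le (by exact_mod_cast (Nat.le_add_left 2 n))
    have h3 := (abs_le.1 hT).2
    have h4 : M * ‖h‖ ^ n * ‖v‖ ^ 2 / (n.factorial : ℝ) ≤ M * ‖h‖ ^ n * ‖v‖ ^ 2 := by
      apply div_le_self (by positivity)
      exact_mod_cast Nat.factorial_pos n
    linarith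
  · intro j hj s hs
    have hC := (hball _ (hmem s hs)).1
    have hd : DifferentiableAt ℝ (iteratedFDeriv ℝ (j + 2) N) (x₀ + s • h) :=
      hC.differentiableAt_iteratedFDeriv (by exact_mod_cast (by omega : j + 2 < n + 2))
    have hd' := hd.continuousMultilinear_apply_const (tup j h v)
    have h1 : HasDerivAt (fun s : ℝ => x₀ + s • h) h s := by
      simpa using ((hasDerivAt_id s).smul_const h).const_add x₀
    have h2 := hd'.hasFDerivAt.comp_hasDerivAt s h1
    have h3 : iteratedFDeriv ℝ (j + 1 + 2) N (x₀ + s • h) (tup (j + 1) h v) =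
        fderiv ℝ (fun y => iteratedFDeriv ℝ (j + 2) N y (tup j h v)) (x₀ + s • h) h := by
      have := hd.iteratedFDeriv_succ_apply_left' (m := tup (j + 1) h v)
      rw [tail_tup, tup_succ_zero] at this
      exact this
    have h4 : HasDerivAt (fun s : ℝ => iteratedFDeriv ℝ (j + 2) N (x₀ + s • h) (tup j h v))
        (fderiv ℝ (fun y => iteratedFDeriv ℝ (j + 2) N y (tup j h v)) (x₀ + s • h) h) s := h2
    rw [← h3] at h4
    exact h4
  · intro s hs
    have hb := (hball _ (hmem s hs)).2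
    have h1 := (iteratedFDeriv ℝ (n + 2) N (x₀ + s • h)).le_opNorm (tup n h v)
    rw [norm_tup_prod, Real.norm_eq_abs] at h1
    refine h1.trans ?_
    rw [mul_assoc M]
    exact mul_le_mul_of_nonneg_right hb.le (by positivity)

end Pool.Agent.Helper23.PZ
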