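import Mathlib
import Pool.Agent.Helper23.PZ.Star

/-! Choosing signs. -/

set_option autoImplicit false
set_option linter.unusedSectionVars false

namespace Pool.Agent.Helper23.PZ

open Set Filter Topology

/-- `ρ` takes only the values `1` and `-1` -/
def IsSign {ι : Type*} (ρ : ι → ℝ) : Prop := ∀ i, ρ i = 1 ∨ ρ i = -1

theorem IsSign.mul {ι : Type*} {ρ σ : ι → ℝ} (h1 : IsSign ρ) (h2 : IsSign σ) :
    IsSign (fun i => ρ i * σ i) := by
  intro i
  rcases h1 i with h | h <;> rcases h2 i with h' | h' <;> simp [h, h']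

theorem IsSign.sq {ι : Type*} {ρ : ι → ℝ} (h1 : IsSign ρ) (i : ι) : ρ i * ρ i = 1 := by
  rcases h1 i with h | h <;> simp [h]

theorem IsSign.abs {ι : Type*} {ρ : ι → ℝ} (h1 : IsSign ρ) (i : ι) : |ρ i| = 1 := by
  rcases h1 i with h | h <;> simp [h]

structure Bil {V : Type*} [AddCommGroup V] [Module ℝ V] (D : V → V → ℝ) : Prop where
  addl : ∀ a a' b, D (a + a') b = D a b + D a' b
  addr : ∀ a b b', D a (b + b') = D a b + D a b'
  smull : ∀ (s : ℝ) a b, D (s • a) b = s * D a b
  smulr : ∀ (s : ℝ) a b, D a (s • b) = s * D a b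

/-- symmetric four-linear forms -/
structure Sym4 {V : Type*} [AddCommGroup V] [Module ℝ V] (L : V → V → V → V → ℝ) : Prop where
  add : ∀ a a' b c d, L (a + a') b c d = L a b c d + L a' b c d
  smul : ∀ (s : ℝ) a b c d, L (s • a) b c d = s * L a b c d
  swap1 : ∀ a b c d, L a b c d = L b a c d
  swap2 : ∀ a b c d, L a b c d = L a c b d
  swap3 : ∀ a b c d, L a b c d = L a b d c

section

variable {V : Type*} [AddCommGroup V] [Module ℝ V]

theorem Bil.zero {D : V → V → ℝ} (hD : Bil D) : D 0 0 = 0 := by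
  have := hD.smull 0 0 0
  simpa using this

theorem Bil.neg {D : V → V → ℝ} (hD : Bil D) : Bil (fun a b => - D a b) :=
  ⟨fun a a' b => by rw [hD.addl]; ring, fun a b b' => by rw [hD.addr]; ring,
    fun s a b => by rw [hD.smull]; ring, fun s a b => by rw [hD.smulr]; ring⟩

theorem exists_signs_bil {ι : Type*} [DecidableEq ι] {D : V → V → ℝ} (hD : Bil D) (f : ι → V)
    (s : Finset ι) : ∃ ρ : ι → ℝ, IsSign ρ ∧
      ∑ i ∈ s, D (f i) (f i) ≤ D (∑ i ∈ s, ρ i • f i) (∑ i ∈ s, ρ i • f i) := by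
  induction s using Finset.induction_on with
  | empty => exact ⟨fun _ => 1, fun _ => Or.inl rfl, by simp [hD.zero]⟩
  | insert a s ha ih =>
    obtain ⟨ρ, hρ, h⟩ := ih
    set x := ∑ i ∈ s, ρ i • f i with hx
    obtain ⟨σ, hσ, hσ2⟩ : ∃ σ : ℝ, (σ = 1 ∨ σ = -1) ∧ 0 ≤ σ * (D (f a) x + D x (f a)) := by
      rcases le_total 0 (D (f a) x + D x (f a)) with h0 | h0
      · exact ⟨1, Or.inl rfl, by simpa using h0⟩
      · exact ⟨-1, Or.inr rfl, by linarith⟩
    refine ⟨Function.update ρ a σ, ?_, ?_⟩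
    · intro i
      by_cases hi : i = a
      · subst hi; simpa using hσ
      · simpa [Function.update_of_ne hi] using hρ i
    · have e : ∑ i ∈ insert a s, Function.update ρ a σ i • f i = σ • f a + x := by
        rw [Finset.sum_insert ha, Function.update_self]
        congr 1
        refine Finset.sum_congr rfl fun i hi => ?_
        rw [Function.update_of_ne (by rintro rfl; exact ha hi)]
      rw [e, Finset.sum_insert ha, hD.addl, hD.addr, hD.addr, hD.smull, hD.smulr, hD.smull, hD.smulr]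
      have h2 : σ * σ = 1 := by rcases hσ with h | h <;> simp [h]
      have h3 : σ * (σ * D (f a) (f a)) = D (f a) (f a) := by rw [← mul_assoc, h2, one_mul]
      rw [h3]
      linarith [mul_add σ (D (f a) x) (D x (f a))]

variable {L : V → V → V → V → ℝ}

theorem Sym4.add2 (hL : Sym4 L) (a b b' c d : V) : L a (b + b') c d = L a b c d + L a b' c d := by
  rw [hL.swap1, hL.add, hL.swap1 b, hL.swap1 b']

theorem Sym4.add3 (hL : Sym4 L) (a b c c' d : V) : L a b (c + c') d = L a b c d + L a b c' d := by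
  rw [hL.swap2, hL.add2, hL.swap2 a c, hL.swap2 a c']

theorem Sym4.add4 (hL : Sym4 L) (a b c d d' : V) : L a b c (d + d') = L a b c d + L a b c d' := by
  rw [hL.swap3, hL.add3, hL.swap3 a b d, hL.swap3 a b d']

theorem Sym4.smul2 (hL : Sym4 L) (s : ℝ) (a b c d : V) : L a (s • b) c d = s * L a b c d := by
  rw [hL.swap1, hL.smul, hL.swap1 b]

theorem Sym4.smul3 (hL : Sym4 L) (s : ℝ) (a b c d : V) : L a b (s • c) d = s * L a b c d := by
  rw [hL.swap2, hL.smul2, hL.swap2 a c]

theorem Sym4.smul4 (hL : Sym4 L) (s : ℝ) (a b c d : V) : L a b c (s • d) = s * L a b c d := by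
  rw [hL.swap3, hL.smul3, hL.swap3 a b d]

theorem Sym4.bil (hL : Sym4 L) (a b : V) : Bil (fun c d => L a b c d) :=
  ⟨fun _ _ _ => hL.add3 _ _ _ _ _, fun _ _ _ => hL.add4 _ _ _ _ _,
    fun _ _ _ => hL.smul3 _ _ _ _ _, fun _ _ _ => hL.smul4 _ _ _ _ _⟩

theorem Sym4.expand (hL : Sym4 L) (σ : ℝ) (hσ : σ = 1 ∨ σ = -1) (a x : V) :
    L (σ • a + x) (σ • a + x) (σ • a + x) (σ • a + x) =
      L a a a a + 6 * L a a x x + L x x x x + σ * (4 * L a a a x + 4 * L a x x x) := by
  have e1 : L a x a x = L a a x x := hL.swap2 _ _ _ _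
  have e2 : L a x x a = L a a x x := by rw [hL.swap3, hL.swap2]
  have e3 : L x a a x = L a a x x := by rw [hL.swap1, hL.swap2]
  have e4 : L x a x a = L a a x x := by rw [hL.swap1, hL.swap3, hL.swap2]
  have e5 : L x x a a = L a a x x := by rw [hL.swap2, hL.swap1, hL.swap3, hL.swap2]
  have f1 : L a a x a = L a a a x := hL.swap3 _ _ _ _
  have f2 : L a x a a = L a a a x := by rw [hL.swap2, hL.swap3]
  have f3 : L x a a a = L a a a x := by rw [hL.swap1, hL.swap2, hL.swap3]
  have g1 : L x a x x = L a x x x := hL.swap1 _ _ _ _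
  have g2 : L x x a x = L a x x x := by rw [hL.swap2, hL.swap1]
  have g3 : L x x x a = L a x x x := by rw [hL.swap3, hL.swap2, hL.swap1]
  simp only [hL.add, hL.add2, hL.add3, hL.add4, hL.smul, hL.smul2, hL.smul3, hL.smul4,
    e1, e2, e3, e4, e5, f1, f2, f3, g1, g2, g3]
  rcases hσ with h | h <;> subst h <;> ring

theorem exists_signs_quartic {ι : Type*} [DecidableEq ι] (hL : Sym4 L) (f : ι → V)
    (s : Finset ι) : ∀ {Q : V → V → ℝ}, Bil Q → ∃ ρ : ι → ℝ, IsSign ρ ∧
      L (∑ i ∈ s, ρ i • f i) (∑ i ∈ s, ρ i • f i) (∑ i ∈ s, ρ i • f i) (∑ i ∈ s, ρ i • f i) +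
        Q (∑ i ∈ s, ρ i • f i) (∑ i ∈ s, ρ i • f i) ≤
      3 * ∑ i ∈ s, ∑ j ∈ s, L (f i) (f i) (f j) (f j) - 2 * ∑ i ∈ s, L (f i) (f i) (f i) (f i) +
        ∑ i ∈ s, Q (f i) (f i) := by
  induction s using Finset.induction_on with
  | empty =>
    intro Q hQ
    refine ⟨fun _ => 1, fun _ => Or.inl rfl, ?_⟩
    have h1 : L 0 0 0 0 = 0 := by
      have := hL.smul 0 0 0 0 0
      simpa using this
    simp [hQ.zero, h1]
  | insert a s ha ih =>
    intro Q hQ
    have hQ' : Bil (fun c d => Q c d + 6 * L (f a) (f a) c d) := by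
      have hB := hL.bil (f a) (f a)
      refine ⟨fun p p' q => ?_, fun p q q' => ?_, fun t p q => ?_, fun t p q => ?_⟩
      · rw [hQ.addl, hL.add3]; ring
      · rw [hQ.addr, hL.add4]; ring
      · rw [hQ.smull, hL.smul3]; ring
      · rw [hQ.smulr, hL.smul4]; ring
    obtain ⟨ρ, hρ, h⟩ := ih hQ'
    set x := ∑ i ∈ s, ρ i • f i with hx
    set T : ℝ := Q (f a) x + Q x (f a) + (4 * L (f a) (f a) (f a) x + 4 * L (f a) x x x) with hT
    obtain ⟨σ, hσ, hσ2⟩ : ∃ σ : ℝ, (σ = 1 ∨ σ = -1) ∧ σ * T ≤ 0 := by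
      rcases le_total 0 T with h0 | h0
      · exact ⟨-1, Or.inr rfl, by linarith⟩
      · exact ⟨1, Or.inl rfl, by linarith⟩
    refine ⟨Function.update ρ a σ, ?_, ?_⟩
    · intro i
      by_cases hi : i = a
      · subst hi; simpa using hσ
      · simpa [Function.update_of_ne hi] using hρ i
    · have e : ∑ i ∈ insert a s, Function.update ρ a σ i • f i = σ • f a + x := by
        rw [Finset.sum_insert ha, Function.update_self]
        congr 1
        refine Finset.sum_congr rfl fun i hi => ?_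
        rw [Function.update_of_ne (by rintro rfl; exact ha hi)]
      have h2 : σ * σ = 1 := by rcases hσ with h | h <;> simp [h]
      have hQx : Q (σ • f a + x) (σ • f a + x) =
          Q (f a) (f a) + σ * (Q (f a) x + Q x (f a)) + Q x x := by
        rw [hQ.addl, hQ.addr, hQ.addr, hQ.smull, hQ.smulr, hQ.smull, hQ.smulr]
        have h3 : σ * (σ * Q (f a) (f a)) = Q (f a) (f a) := by rw [← mul_assoc, h2, one_mul]
        rw [h3]; ring
      have hsym : ∀ i j, L (f i) (f i) (f j) (f j) = L (f j) (f j) (f i) (f i) := by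
        intro i j
        rw [hL.swap2, hL.swap1, hL.swap3, hL.swap2]
      have hdouble : ∑ i ∈ insert a s, ∑ j ∈ insert a s, L (f i) (f i) (f j) (f j) =
          L (f a) (f a) (f a) (f a) + 2 * ∑ j ∈ s, L (f a) (f a) (f j) (f j) +
            ∑ i ∈ s, ∑ j ∈ s, L (f i) (f i) (f j) (f j) := by
        rw [Finset.sum_insert ha, Finset.sum_insert ha]
        have : ∑ i ∈ s, ∑ j ∈ insert a s, L (f i) (f i) (f j) (f j) =
            ∑ j ∈ s, L (f a) (f a) (f j) (f j) + ∑ i ∈ s, ∑ j ∈ s, L (f i) (f i) (f j) (f j) := by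
          rw [← Finset.sum_add_distrib]
          refine Finset.sum_congr rfl fun i _ => ?_
          rw [Finset.sum_insert ha, hsym i a]
        rw [this]; ring
      rw [e, hL.expand σ hσ, hQx, hdouble, Finset.sum_insert ha, Finset.sum_insert ha]
      have h5 : ∑ i ∈ s, (Q (f i) (f i) + 6 * L (f a) (f a) (f i) (f i)) =
          ∑ i ∈ s, Q (f i) (f i) + 6 * ∑ i ∈ s, L (f a) (f a) (f i) (f i) := by
        rw [Finset.sum_add_distrib, Finset.mul_sum]
      rw [h5] at h
      have h6 : σ * (4 * L (f a) (f a) (f a) x + 4 * L (f a) x x x) +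
          σ * (Q (f a) x + Q x (f a)) ≤ 0 := by
        have : σ * T = σ * (4 * L (f a) (f a) (f a) x + 4 * L (f a) x x x) +
          σ * (Q (f a) x + Q x (f a)) := by rw [hT]; ring
        linarith
      linarith

end

section signsum

variable {Ω : Type*} [Fintype Ω] [DecidableEq Ω]

theorem tup_succ {Y : Type*} (j : ℕ) (h v : Y) :
    tup (j + 1) h v = Fin.cons (n := j + 2) (α := fun _ => Y) h (tup j h v) := by
  have h1 := Fin.cons_self_tail (n := j + 2) (α := fun _ => Y) (tup (j + 1) h v)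
  rw [tail_tup] at h1
  rw [tup_succ_zero] at h1
  exact h1.symm

theorem sum_single_signs (ρ : Ω → ℝ) : ∑ i, ρ i • (Pi.single i (1:ℝ) : Ω → ℝ) = ρ := by
  funext j
  simp [Finset.sum_apply, Pi.single_apply]

theorem signsum {A : Type*} [Fintype A] (w : A → ℝ) (u : A → Ω → ℝ) (hu : ∀ α, IsSign (u α))
    (ε : Ω → ℝ) (hε : IsSign ε) (k : ℕ) :
    ∀ (L : MultilinearMap ℝ (fun _ : Fin (k + 2) => (Ω → ℝ)) ℝ) (K : ℝ)
      (_ : ∀ m : Fin (k + 2) → Ω → ℝ, (∀ l, IsSign (m l)) → |L m| ≤ K) (χ : Ω → ℝ) (_ : IsSign χ),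
      |∑ i, χ i * L (tup k (fun j => ε j * ∑ α, w α * u α i * u α j) (Pi.single i (1:ℝ)))| ≤
        (∑ α, |w α|) ^ k * K := by
  induction k with
  | zero =>
    intro L K hK χ hχ
    simp only [tup_zero_eq, pow_zero, one_mul]
    -- the bilinear form
    set D : (Ω → ℝ) → (Ω → ℝ) → ℝ := fun a b =>
      (L.curryLeft (fun i => χ i * a i)).curryLeft b Fin.elim0 with hD
    have hDB : Bil D := by
      refine ⟨fun a a' b => ?_, fun a b b' => ?_, fun s a b => ?_, fun s a b => ?_⟩
      · simp only [hD]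
        have : (fun i => χ i * (a + a') i) = (fun i => χ i * a i) + fun i => χ i * a' i := by
          funext i; simp [mul_add]
        rw [this, map_add]
        rfl
      · simp only [hD]
        rw [map_add]
        rfl
      · simp only [hD]
        have : (fun i => χ i * (s • a) i) = s • (fun i => χ i * a i) := by
          funext i; simp [mul_left_comm]
        rw [this, map_smul]
        rfl
      · simp only [hD]
        rw [map_smul]
        rfl
    have hval : ∀ a b : Ω → ℝ, D a b = L ![fun i => χ i * a i, b] := by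
      intro a b
      simp only [hD, MultilinearMap.curryLeft_apply]
      congr 1
    have hdiag : ∀ i, D (Pi.single i 1) (Pi.single i 1) = χ i * L (fun _ => Pi.single i (1:ℝ)) := by
      intro i
      have e1 : (fun j => χ j * (Pi.single i (1:ℝ) : Ω → ℝ) j) = χ i • (Pi.single i (1:ℝ) : Ω → ℝ) := by
        funext j
        by_cases hj : j = i
        · subst hj; simp
        · simp [hj]
      simp only [hD]
      rw [e1, map_smul]
      have e2 : ((L.curryLeft (Pi.single i (1:ℝ))).curryLeft (Pi.single i (1:ℝ))) Fin.elim0 =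
          L (fun _ => Pi.single i (1:ℝ)) := by
        simp only [MultilinearMap.curryLeft_apply]
        congr 1
        funext l
        fin_cases l <;> rfl
      rw [← e2]
      rfl
    have hbound : ∀ ρ : Ω → ℝ, IsSign ρ → |D ρ ρ| ≤ K := by
      intro ρ hρ
      rw [hval]
      apply hK
      intro l
      fin_cases l
      · exact hχ.mul hρ
      · exact hρ
    rw [abs_le]
    constructor
    · obtain ⟨ρ, hρ, h⟩ := exists_signs_bil hDB.neg (fun i : Ω => (Pi.single i (1:ℝ) : Ω → ℝ))
        Finset.univ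
      simp only [sum_single_signs, hdiag, Finset.sum_neg_distrib] at h
      have := (abs_le.1 (hbound ρ hρ)).1
      linarith
    · obtain ⟨ρ, hρ, h⟩ := exists_signs_bil hDB (fun i : Ω => (Pi.single i (1:ℝ) : Ω → ℝ))
        Finset.univ
      simp only [sum_single_signs, hdiag] at h
      have := (abs_le.1 (hbound ρ hρ)).2
      linarith
  | succ k ih =>
    intro L K hK χ hχ
    set H : Ω → Ω → ℝ := fun i j => ε j * ∑ α, w α * u α i * u α j with hH
    set S : Ω → (Fin (k + 2) → Ω → ℝ) := fun i => tup k (H i) (Pi.single i (1:ℝ)) with hS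
    have h1 : ∀ i, L (tup (k + 1) (H i) (Pi.single i (1:ℝ))) =
        ∑ α, (w α * u α i) * (L.curryLeft (fun j => ε j * u α j)) (S i) := by
      intro i
      have e1 : L (tup (k + 1) (H i) (Pi.single i (1:ℝ))) = (L.curryLeft (H i)) (S i) := by
        rw [tup_succ]
        rfl
      have e2 : H i = ∑ α, (w α * u α i) • (fun j => ε j * u α j) := by
        funext j
        simp only [hH, Finset.sum_apply, Pi.smul_apply, smul_eq_mul, Finset.mul_sum]
        refine Finset.sum_congr rfl fun α _ => by ring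
      rw [e1]
      conv_lhs => rw [e2]
      rw [map_sum, _root_.sum_apply]
      refine Finset.sum_congr rfl fun α _ => ?_
      rw [map_smul, _root_.smul_apply, smul_eq_mul]
    have h2 : ∑ i, χ i * L (tup (k + 1) (H i) (Pi.single i (1:ℝ))) =
        ∑ α, w α * ∑ i, (χ i * u α i) * (L.curryLeft (fun j => ε j * u α j)) (S i) := by
      simp_rw [h1, Finset.mul_sum]
      rw [Finset.sum_comm]
      refine Finset.sum_congr rfl fun α _ => Finset.sum_congr rfl fun i _ => by ring
    have h3 : ∀ α, |∑ i, (χ i * u α i) * (L.curryLeft (fun j => ε j * u α j)) (S i)| ≤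
        (∑ α, |w α|) ^ k * K := by
      intro α
      apply ih (L.curryLeft (fun j => ε j * u α j)) K _ (fun i => χ i * u α i) (hχ.mul (hu α))
      intro m hm
      rw [MultilinearMap.curryLeft_apply]
      apply hK
      intro l
      refine Fin.cases ?_ (fun l => ?_) l
      · simpa using hε.mul (hu α)
      · simpa using hm l
    rw [h2]
    calc |∑ α, w α * ∑ i, (χ i * u α i) * (L.curryLeft (fun j => ε j * u α j)) (S i)|
        ≤ ∑ α, |w α| * ((∑ α, |w α|) ^ k * K) := by
          refine (Finset.abs_sum_le_sum_abs _ _).trans (Finset.sum_le_sum fun α _ => ?_)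
          rw [abs_mul]
          exact mul_le_mul_of_nonneg_left (h3 α) (abs_nonneg _)
      _ = _ := by rw [← Finset.sum_mul]; ring

end signsum

end Pool.Agent.Helper23.PZ
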