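import Mathlib
import Pool.Agent.Helper23.PZ.Signs

/-! Symmetry of the fourth derivative. -/

set_option autoImplicit false
set_option linter.unusedSectionVars false

namespace Pool.Agent.Helper23.PZ

open Set Filter Topology

variable {Y : Type*} [NormedAddCommGroup Y] [NormedSpace ℝ Y]

theorem swapA (f : Y → ℝ) (k : ℕ) {y : Y} (hf : ContDiffAt ℝ ((k + 2 : ℕ) : WithTop ℕ∞) f y)
    (a b : Y) (m : Fin k → Y) :
    iteratedFDeriv ℝ (k + 2) f y (Fin.cons (n := k + 1) (α := fun _ => Y) a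
      (Fin.cons (n := k) (α := fun _ => Y) b m)) =
    iteratedFDeriv ℝ (k + 2) f y (Fin.cons (n := k + 1) (α := fun _ => Y) b
      (Fin.cons (n := k) (α := fun _ => Y) a m)) := by
  set G : Y → ℝ := fun z => iteratedFDeriv ℝ k f z m with hG
  have h2 : ContDiffAt ℝ 2 (iteratedFDeriv ℝ k f) y :=
    hf.iteratedFDeriv_right (m := 2) (i := k) (by
      have : ((2 : ℕ) : WithTop ℕ∞) + ((k : ℕ) : WithTop ℕ∞) = ((k + 2 : ℕ) : WithTop ℕ∞) := by
        push_cast; ring
      exact this.le)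
  have hGC : ContDiffAt ℝ 2 G y := by
    have h := (ContinuousMultilinearMap.apply ℝ (fun _ : Fin k => Y) ℝ m).contDiff (n := 2)
    exact h.contDiffAt.comp y h2
  have hsym : IsSymmSndFDerivAt ℝ G y := hGC.isSymmSndFDerivAt (by simp)
  have hev : ∀ᶠ z in 𝓝 y, ContDiffAt ℝ ((k + 2 : ℕ) : WithTop ℕ∞) f z :=
    hf.eventually (natCast_ne_infty _)
  have hGd : DifferentiableAt ℝ (fderiv ℝ G) y :=
    (hGC.fderiv_right (m := 1) (by norm_num)).differentiableAt one_ne_zero
  have key : ∀ a b : Y, iteratedFDeriv ℝ (k + 2) f y (Fin.cons (n := k + 1) (α := fun _ => Y) a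
      (Fin.cons (n := k) (α := fun _ => Y) b m)) = fderiv ℝ (fderiv ℝ G) y a b := by
    intro a b
    have hd1 : DifferentiableAt ℝ (iteratedFDeriv ℝ (k + 1) f) y :=
      hf.differentiableAt_iteratedFDeriv (by exact_mod_cast (by omega : k + 1 < k + 2))
    have e1 := hd1.iteratedFDeriv_succ_apply_left' (m := Fin.cons (n := k + 1) (α := fun _ => Y) a
      (Fin.cons (n := k) (α := fun _ => Y) b m))
    rw [Fin.tail_cons, Fin.cons_zero] at e1
    have e2 : (fun z => iteratedFDeriv ℝ (k + 1) f z (Fin.cons (n := k) (α := fun _ => Y) b m))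
        =ᶠ[𝓝 y] fun z => fderiv ℝ G z b := by
      filter_upwards [hev] with z hz
      have hd : DifferentiableAt ℝ (iteratedFDeriv ℝ k f) z :=
        hz.differentiableAt_iteratedFDeriv (by exact_mod_cast (by omega : k < k + 2))
      have := hd.iteratedFDeriv_succ_apply_left' (m := Fin.cons (n := k) (α := fun _ => Y) b m)
      rw [Fin.tail_cons, Fin.cons_zero] at this
      exact this
    have e3 : fderiv ℝ (fun z => fderiv ℝ G z b) y a = fderiv ℝ (fderiv ℝ G) y a b := by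
      rw [fderiv_clm_apply hGd (differentiableAt_const b)]
      simp
    calc _ = fderiv ℝ (fun z => iteratedFDeriv ℝ (k + 1) f z
          (Fin.cons (n := k) (α := fun _ => Y) b m)) y a := e1
      _ = fderiv ℝ (fun z => fderiv ℝ G z b) y a := by rw [e2.fderiv_eq]
      _ = _ := e3
  rw [key, key]
  exact hsym a b

theorem swapNext (f : Y → ℝ) (k : ℕ) {y : Y} (hf : ContDiffAt ℝ ((k + 1 : ℕ) : WithTop ℕ∞) f y)
    (a : Y) (m m' : Fin k → Y)
    (h : ∀ᶠ z in 𝓝 y, iteratedFDeriv ℝ k f z m = iteratedFDeriv ℝ k f z m') :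
    iteratedFDeriv ℝ (k + 1) f y (Fin.cons (n := k) (α := fun _ => Y) a m) =
    iteratedFDeriv ℝ (k + 1) f y (Fin.cons (n := k) (α := fun _ => Y) a m') := by
  have hd1 : DifferentiableAt ℝ (iteratedFDeriv ℝ k f) y :=
    hf.differentiableAt_iteratedFDeriv (by exact_mod_cast (by omega : k < k + 1))
  have e1 := hd1.iteratedFDeriv_succ_apply_left' (m := Fin.cons (n := k) (α := fun _ => Y) a m)
  have e2 := hd1.iteratedFDeriv_succ_apply_left' (m := Fin.cons (n := k) (α := fun _ => Y) a m')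
  rw [Fin.tail_cons, Fin.cons_zero] at e1 e2
  rw [e1, e2, Filter.EventuallyEq.fderiv_eq h]

theorem sym4 {N : Y → ℝ} {x : Y} (hN : ContDiffAt ℝ ((4 : ℕ) : WithTop ℕ∞) N x) :
    Sym4 (fun a b c d : Y => iteratedFDeriv ℝ 4 N x ![a, b, c, d]) := by
  have hev : ∀ᶠ z in 𝓝 x, ContDiffAt ℝ ((4 : ℕ) : WithTop ℕ∞) N z :=
    hN.eventually (natCast_ne_infty _)
  have hev3 : ∀ᶠ z in 𝓝 x, ∀ᶠ w in 𝓝 z, ContDiffAt ℝ ((4 : ℕ) : WithTop ℕ∞) N w := hev.eventually_nhds
  have hle : ∀ {z : Y} (j : ℕ), j ≤ 4 → ContDiffAt ℝ ((4 : ℕ) : WithTop ℕ∞) N z →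
      ContDiffAt ℝ ((j : ℕ) : WithTop ℕ∞) N z := fun j hj h => h.of_le (by exact_mod_cast hj)
  have upd : ∀ (a b c d a' : Y), Function.update ![a, b, c, d] 0 a' = ![a', b, c, d] := by
    intro a b c d a'
    funext l
    fin_cases l <;> rfl
  refine ⟨fun a a' b c d => ?_, fun s a b c d => ?_, fun a b c d => ?_, fun a b c d => ?_,
    fun a b c d => ?_⟩
  · have := (iteratedFDeriv ℝ 4 N x).map_update_add ![a, b, c, d] 0 a a'
    rw [upd, upd, upd] at this
    exact this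
  · have := (iteratedFDeriv ℝ 4 N x).map_update_smul ![a, b, c, d] 0 s a
    rw [upd, upd, smul_eq_mul] at this
    exact this
  · exact swapA N 2 (hle 4 le_rfl hN) a b ![c, d]
  · refine swapNext N 3 (hle 4 le_rfl hN) a ![b, c, d] ![c, b, d] ?_
    filter_upwards [hev] with z hz
    exact swapA N 1 (hle 3 (by norm_num) hz) b c ![d]
  · refine swapNext N 3 (hle 4 le_rfl hN) a ![b, c, d] ![b, d, c] ?_
    filter_upwards [hev, hev3] with z hz hz3
    refine swapNext N 2 (hle 3 (by norm_num) hz) b ![c, d] ![d, c] ?_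
    filter_upwards [hz3] with w hw
    exact swapA N 0 (hle 2 (by norm_num) hw) c d ![]

theorem Sym4.comp {V W : Type*} [AddCommGroup V] [Module ℝ V] [AddCommGroup W] [Module ℝ W]
    {L : W → W → W → W → ℝ} (hL : Sym4 L) (J : V →ₗ[ℝ] W) :
    Sym4 (fun a b c d : V => L (J a) (J b) (J c) (J d)) :=
  ⟨fun a a' b c d => by rw [map_add]; exact hL.add _ _ _ _ _,
    fun s a b c d => by rw [map_smul]; exact hL.smul _ _ _ _ _,
    fun _ _ _ _ => hL.swap1 _ _ _ _, fun _ _ _ _ => hL.swap2 _ _ _ _,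
    fun _ _ _ _ => hL.swap3 _ _ _ _⟩

end Pool.Agent.Helper23.PZ
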