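import Mathlib
import Pool.Agent.Helper23.PZ.Sym
import Pool.Agent.Helper23.PZ.Iface

/-! The negative energy of the kernel. -/

set_option autoImplicit false
set_option linter.unusedSectionVars false

namespace Pool.Agent.Helper23.PZ

open Finset

variable {Ω : Type*} [Fintype Ω] [DecidableEq Ω]

/-- signs restricted to a set -/
def rsg (S : Finset Ω) (ρ : Ω → ℝ) : Ω → ℝ := fun i => if i ∈ S then ρ i else 0

theorem sum_single_eq (S : Finset Ω) (ρ : Ω → ℝ) :
    ∑ i ∈ S, ρ i • (Pi.single i (1:ℝ) : Ω → ℝ) = rsg S ρ := by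
  funext j
  simp only [Finset.sum_apply, Pi.smul_apply, smul_eq_mul, rsg]
  by_cases hj : j ∈ S
  · rw [if_pos hj, Finset.sum_eq_single j]
    · simp
    · intro b _ hb
      simp [hb]
    · intro h; exact absurd hj h
  · rw [if_neg hj]
    apply Finset.sum_eq_zero
    intro i hi
    have : i ≠ j := by rintro rfl; exact hj hi
    simp [this]

/-- the numbers `L(e_i, e_i, e_j, e_j)` -/
def beta (L : (Ω → ℝ) → (Ω → ℝ) → (Ω → ℝ) → (Ω → ℝ) → ℝ) (i j : Ω) : ℝ :=
  L (Pi.single i 1) (Pi.single i 1) (Pi.single j 1) (Pi.single j 1)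

variable {L : (Ω → ℝ) → (Ω → ℝ) → (Ω → ℝ) → (Ω → ℝ) → ℝ}

theorem Sym4.bil_sum {ι : Type*} (hL : Sym4 L) (S : Finset ι) (g : ι → Ω → ℝ) :
    Bil (fun x y => ∑ j ∈ S, L x y (g j) (g j)) := by
  refine ⟨fun a a' b => ?_, fun a b b' => ?_, fun s a b => ?_, fun s a b => ?_⟩
  · rw [← Finset.sum_add_distrib]
    exact Finset.sum_congr rfl fun j _ => hL.add _ _ _ _ _
  · rw [← Finset.sum_add_distrib]
    exact Finset.sum_congr rfl fun j _ => hL.add2 _ _ _ _ _
  · rw [Finset.mul_sum]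
    exact Finset.sum_congr rfl fun j _ => hL.smul _ _ _ _ _
  · rw [Finset.mul_sum]
    exact Finset.sum_congr rfl fun j _ => hL.smul2 _ _ _ _ _

theorem up_S (hL : Sym4 L) (nm : (Ω → ℝ) → ℝ) (C : ℝ) (hC : 0 ≤ C)
    (hup : ∀ a b, L a a b b ≤ C * (nm a ^ 2 * nm b ^ 2)) (S : Finset Ω) (B : ℝ)
    (hB : ∀ ρ, IsSign ρ → nm (rsg S ρ) ^ 4 ≤ B) :
    ∑ i ∈ S, ∑ j ∈ S, beta L i j ≤ C * B := by
  obtain ⟨ρ, hρ, h1⟩ := exists_signs_bil (hL.bil_sum S (fun j => (Pi.single j (1:ℝ) : Ω → ℝ)))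
    (fun i : Ω => (Pi.single i (1:ℝ) : Ω → ℝ)) S
  rw [sum_single_eq] at h1
  obtain ⟨σ, hσ, h2⟩ := exists_signs_bil (hL.bil (rsg S ρ) (rsg S ρ))
    (fun i : Ω => (Pi.single i (1:ℝ) : Ω → ℝ)) S
  rw [sum_single_eq] at h2
  have h3 := hup (rsg S ρ) (rsg S σ)
  have h4 := hB ρ hρ
  have h5 := hB σ hσ
  have h6 : nm (rsg S ρ) ^ 2 * nm (rsg S σ) ^ 2 ≤ B := by
    nlinarith [sq_nonneg (nm (rsg S ρ) ^ 2 - nm (rsg S σ) ^ 2)]
  have h7 : C * (nm (rsg S ρ) ^ 2 * nm (rsg S σ) ^ 2) ≤ C * B := mul_le_mul_of_nonneg_left h6 hC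
  calc ∑ i ∈ S, ∑ j ∈ S, beta L i j ≤ _ := h1
    _ ≤ _ := h2
    _ ≤ _ := h3
    _ ≤ _ := h7

theorem low_S (hL : Sym4 L) (nm : (Ω → ℝ) → ℝ) (c : ℝ) (hc : 0 ≤ c)
    (hlow : ∀ x, c * nm x ^ 4 ≤ L x x x x) (S : Finset Ω) (b : ℝ)
    (hb : ∀ ρ, IsSign ρ → b ≤ nm (rsg S ρ) ^ 4) :
    c * b ≤ 3 * ∑ i ∈ S, ∑ j ∈ S, beta L i j - 2 * ∑ i ∈ S, beta L i i := by
  have hQ : Bil (fun _ _ : Ω → ℝ => (0:ℝ)) := ⟨by simp, by simp, by simp, by simp⟩
  obtain ⟨ρ, hρ, h1⟩ := exists_signs_quartic hL (fun i : Ω => (Pi.single i (1:ℝ) : Ω → ℝ)) S hQ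
  rw [sum_single_eq] at h1
  have h2 := hlow (rsg S ρ)
  have h3 : c * b ≤ c * nm (rsg S ρ) ^ 4 := mul_le_mul_of_nonneg_left (hb ρ hρ) hc
  simp only [add_zero, Finset.sum_const_zero] at h1
  calc c * b ≤ _ := h3
    _ ≤ _ := h2
    _ ≤ _ := h1

/-- off-diagonal part of `beta` -/
def offb (L : (Ω → ℝ) → (Ω → ℝ) → (Ω → ℝ) → (Ω → ℝ) → ℝ) (i j : Ω) : ℝ :=
  if i = j then 0 else beta L i j

theorem sum_offb (S : Finset Ω) : ∑ i ∈ S, ∑ j ∈ S, offb L i j =
    ∑ i ∈ S, ∑ j ∈ S, beta L i j - ∑ i ∈ S, beta L i i := by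
  rw [← Finset.sum_sub_distrib]
  refine Finset.sum_congr rfl fun i hi => ?_
  have h1 : ∀ j, offb L i j = beta L i j - if i = j then beta L i j else 0 := by
    intro j
    unfold offb
    split_ifs <;> ring
  simp_rw [h1]
  rw [Finset.sum_sub_distrib, Finset.sum_ite_eq, if_pos hi]

theorem fiber_sum {W : Type*} [Fintype W] [DecidableEq W] (g : Ω → W) (F : Ω → Ω → ℝ) :
    ∑ i, ∑ j, (if g i = g j then F i j else 0) =
      ∑ w, ∑ i ∈ univ.filter (fun i => g i = w), ∑ j ∈ univ.filter (fun i => g i = w), F i j := by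
  have h1 : ∀ w, ∑ i ∈ univ.filter (fun i => g i = w), ∑ j ∈ univ.filter (fun i => g i = w), F i j =
      ∑ i, ∑ j, if g i = w ∧ g j = w then F i j else 0 := by
    intro w
    rw [Finset.sum_filter]
    refine Finset.sum_congr rfl fun i _ => ?_
    by_cases hi : g i = w
    · simp only [hi, true_and, if_true]
      rw [Finset.sum_filter]
    · simp [hi]
  simp_rw [h1]
  symm
  rw [Finset.sum_comm]
  refine Finset.sum_congr rfl fun i _ => ?_
  rw [Finset.sum_comm]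
  refine Finset.sum_congr rfl fun j _ => ?_
  rw [Finset.sum_eq_single (g i)]
  · by_cases h : g i = g j
    · simp [h]
    · simp [h, Ne.symm h]
  · intro w _ hw
    rw [if_neg]
    rintro ⟨h, _⟩
    exact hw h.symm
  · intro h; exact absurd (Finset.mem_univ _) h

/-- number of common classes -/
def mcls {V : Type*} [DecidableEq V] {r : ℕ} (cls : Fin r → Ω → V) (i j : Ω) : ℝ :=
  ∑ c, if cls c i = cls c j then (1:ℝ) else 0

/-- the kernel -/
noncomputable def ker {V : Type*} [DecidableEq V] {r : ℕ} (cls : Fin r → Ω → V) (θ : ℝ)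
    (i j : Ω) : ℝ :=
  if i = j then 0 else 1 - mcls cls i j / θ

theorem ker_sq_beta {V : Type*} [DecidableEq V] {r : ℕ} (cls : Fin r → Ω → V) (θ : ℝ)
    (i j : Ω) : (ker cls θ i j) ^ 2 * beta L i j =
      offb L i j - 2 / θ * (offb L i j * mcls cls i j) +
        1 / θ ^ 2 * (offb L i j * mcls cls i j ^ 2) := by
  unfold ker offb
  split_ifs
  · ring
  · ring

theorem energy (hL : Sym4 L) (nm : (Ω → ℝ) → ℝ) (C c : ℝ) (hc : 0 < c) (hcC : c ≤ C)
    (hup : ∀ a b, L a a b b ≤ C * (nm a ^ 2 * nm b ^ 2))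
    (hlow : ∀ x, 24 * c * nm x ^ 4 ≤ L x x x x)
    {V : Type*} [Fintype V] [DecidableEq V] {r p t Λ A : ℕ} (hp : 0 < p) (hr : r = A * Λ)
    (hΛ : 1 ≤ Λ) (hA1 : 1 ≤ A) (hA : 32 * C ^ 2 ≤ c ^ 2 * A) (hrC : C ≤ c * r) (cls : Fin r → Ω → V)
    (card_V : Fintype.card V = p) (card_clique : ∀ c v, (univ.filter fun i => cls c i = v).card = p ^ t)
    (hall : ∀ ρ : Ω → ℝ, IsSign ρ → nm ρ ^ 4 ≤ 1 + (r : ℝ) * Λ)
    (hcl : ∀ c v (ρ : Ω → ℝ), IsSign ρ →
      (r : ℝ) / (4 * p) ≤ nm (fun i => if cls c i = v then ρ i else 0) ^ 4)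
    (hpt : ∀ i, nm (Pi.single i 1) ^ 4 ≤ 2 / (p : ℝ) ^ (t + 1))
    (htwo : ∀ c c', c ≠ c' → ∀ v v' (ρ : Ω → ℝ), IsSign ρ →
      nm (fun i => if cls c i = v ∧ cls c' i = v' then ρ i else 0) ^ 4 ≤ 2 / (p : ℝ) ^ 2) :
    ∑ i, ∑ j, (ker cls (4 * (C / c)) i j) ^ 2 * beta L i j ≤ - (2 * C * (r * Λ)) := by
  have hC : 0 < C := lt_of_lt_of_le hc hcC
  set θ : ℝ := 4 * (C / c) with hθ
  have hCc : 1 ≤ C / c := (one_le_div hc).2 hcC
  have hθ1 : 1 ≤ θ := by rw [hθ]; linarith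
  have hθ0 : 0 < θ := by linarith
  have hpR : (0:ℝ) < p := by exact_mod_cast hp
  -- diagonal
  have hdiag0 : ∀ i, 0 ≤ beta L i i := by
    intro i
    have h1 := hlow (Pi.single i 1)
    have h2 : 0 ≤ 24 * c * nm (Pi.single i 1) ^ 4 := by positivity
    exact h2.trans h1
  have hdiag1 : ∀ i, beta L i i ≤ C * (2 / (p : ℝ) ^ (t + 1)) := by
    intro i
    have h1 := hup (Pi.single i 1) (Pi.single i 1)
    have h2 := hpt i
    refine le_trans h1 (mul_le_mul_of_nonneg_left ?_ hC.le)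
    calc nm (Pi.single i 1) ^ 2 * nm (Pi.single i 1) ^ 2 = nm (Pi.single i 1) ^ 4 := by ring
      _ ≤ _ := h2
  -- total
  have hT : ∑ i, ∑ j, offb L i j ≤ C * (1 + r * Λ) := by
    rw [sum_offb]
    have h1 := up_S hL nm C hC.le hup univ (1 + (r:ℝ) * Λ) (fun ρ hρ => by
      have : rsg univ ρ = ρ := by funext i; simp [rsg]
      rw [this]; exact hall ρ hρ)
    have h2 : 0 ≤ ∑ i, beta L i i := Finset.sum_nonneg fun i _ => hdiag0 i
    linarith
  -- one class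
  set M1 : Fin r → ℝ := fun c => ∑ i, ∑ j, (if cls c i = cls c j then offb L i j else 0) with hM1
  have hM1low : ∀ c' : Fin r, 2 * c * r - 2 / 3 * C ≤ M1 c' := by
    intro c'
    simp only [hM1]
    rw [fiber_sum (cls c') (offb L)]
    have h1 : ∀ v : V, (2 * c * r - 2 / 3 * C) / p ≤
        ∑ i ∈ univ.filter (fun i => cls c' i = v), ∑ j ∈ univ.filter (fun i => cls c' i = v),
          offb L i j := by
      intro v
      set S := univ.filter (fun i => cls c' i = v) with hS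
      rw [sum_offb]
      have h2 := low_S hL nm (24 * c) (by positivity) hlow S ((r:ℝ) / (4 * p)) (fun ρ hρ => by
        have : rsg S ρ = fun i => if cls c' i = v then ρ i else 0 := by
          funext i; simp [rsg, hS]
        rw [this]; exact hcl c' v ρ hρ)
      have h3 : ∑ i ∈ S, beta L i i ≤ 2 * C / p := by
        calc ∑ i ∈ S, beta L i i ≤ ∑ i ∈ S, C * (2 / (p : ℝ) ^ (t + 1)) :=
              Finset.sum_le_sum fun i _ => hdiag1 i
          _ = (p:ℝ) ^ t * (C * (2 / (p : ℝ) ^ (t + 1))) := by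
              rw [Finset.sum_const, card_clique, nsmul_eq_mul]; push_cast; ring
          _ = 2 * C / p := by
              rw [pow_succ]; field_simp
      have h4 : 24 * c * ((r:ℝ) / (4 * p)) = 6 * c * r / p := by field_simp; ring
      rw [h4] at h2
      have h5 : (2 * c * r - 2 / 3 * C) / p = (6 * c * r / p) / 3 - (2 * C / p) / 3 := by ring
      rw [h5]
      linarith
    calc 2 * c * r - 2 / 3 * C = ∑ _v : V, (2 * c * r - 2 / 3 * C) / p := by
          rw [Finset.sum_const, Finset.card_univ, card_V, nsmul_eq_mul]; field_simp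
      _ ≤ _ := Finset.sum_le_sum fun v _ => h1 v
  -- two classes
  have hM2 : ∀ c₁ c₂ : Fin r, c₁ ≠ c₂ →
      ∑ i, ∑ j, (if cls c₁ i = cls c₁ j then (if cls c₂ i = cls c₂ j then offb L i j else 0) else 0)
        ≤ 2 * C := by
    intro c₁ c₂ hne
    have h0 : ∀ i j, (if cls c₁ i = cls c₁ j then
        (if cls c₂ i = cls c₂ j then offb L i j else 0) else 0) =
        if (cls c₁ i, cls c₂ i) = (cls c₁ j, cls c₂ j) then offb L i j else 0 := by
      intro i j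
      by_cases h1 : cls c₁ i = cls c₁ j <;> by_cases h2 : cls c₂ i = cls c₂ j <;> simp [h1, h2]
    simp_rw [h0]
    rw [fiber_sum (fun i => (cls c₁ i, cls c₂ i)) (offb L)]
    have h1 : ∀ w : V × V, ∑ i ∈ univ.filter (fun i => (cls c₁ i, cls c₂ i) = w),
        ∑ j ∈ univ.filter (fun i => (cls c₁ i, cls c₂ i) = w), offb L i j ≤
        C * (2 / (p:ℝ) ^ 2) := by
      intro w
      set S := univ.filter (fun i => (cls c₁ i, cls c₂ i) = w) with hS
      rw [sum_offb]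
      have h2 := up_S hL nm C hC.le hup S (2 / (p:ℝ) ^ 2) (fun ρ hρ => by
        have : rsg S ρ = fun i => if cls c₁ i = w.1 ∧ cls c₂ i = w.2 then ρ i else 0 := by
          funext i; simp [rsg, hS, Prod.ext_iff]
        rw [this]; exact htwo c₁ c₂ hne w.1 w.2 ρ hρ)
      have h3 : 0 ≤ ∑ i ∈ S, beta L i i := Finset.sum_nonneg fun i _ => hdiag0 i
      linarith
    calc _ ≤ ∑ _w : V × V, C * (2 / (p:ℝ) ^ 2) := Finset.sum_le_sum fun w _ => h1 w
      _ = 2 * C := by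
        rw [Finset.sum_const, Finset.card_univ, Fintype.card_prod, card_V, nsmul_eq_mul]
        push_cast
        field_simp
  -- sum with `m`
  have e1 : ∑ i, ∑ j, offb L i j * mcls cls i j = ∑ c, M1 c := by
    simp only [hM1, mcls]
    have : ∀ i j, offb L i j * ∑ c, (if cls c i = cls c j then (1:ℝ) else 0) =
        ∑ c, if cls c i = cls c j then offb L i j else 0 := by
      intro i j
      rw [Finset.mul_sum]
      refine Finset.sum_congr rfl fun c _ => ?_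
      split_ifs <;> simp
    simp_rw [this]
    rw [Finset.sum_comm' (t' := univ) (s' := fun _ => univ) (by simp)]
    rw [Finset.sum_comm]
    rw [Finset.sum_comm]
    have h2 : ∀ i, ∑ j, ∑ c, (if cls c i = cls c j then offb L i j else 0) =
        ∑ c, ∑ j, (if cls c i = cls c j then offb L i j else 0) := fun i => Finset.sum_comm
    rw [Finset.sum_comm]
    simp_rw [h2]
    rw [Finset.sum_comm]
  have e2 : ∑ i, ∑ j, offb L i j * mcls cls i j ^ 2 ≤ ∑ c, M1 c + (r:ℝ) ^ 2 * (2 * C) := by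
    have h1 : ∀ i j, offb L i j * mcls cls i j ^ 2 = ∑ c₁, ∑ c₂,
        (if cls c₁ i = cls c₁ j then (if cls c₂ i = cls c₂ j then offb L i j else 0) else 0) := by
      intro i j
      unfold mcls
      rw [pow_two, Finset.sum_mul_sum, Finset.mul_sum]
      refine Finset.sum_congr rfl fun c₁ _ => ?_
      rw [Finset.mul_sum]
      refine Finset.sum_congr rfl fun c₂ _ => ?_
      split_ifs <;> simp
    have h2 : ∑ i, ∑ j, offb L i j * mcls cls i j ^ 2 = ∑ c₁, ∑ c₂, ∑ i, ∑ j,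
        (if cls c₁ i = cls c₁ j then (if cls c₂ i = cls c₂ j then offb L i j else 0) else 0) := by
      simp_rw [h1]
      have a1 : ∀ i, ∑ j, ∑ c₁, ∑ c₂,
          (if cls c₁ i = cls c₁ j then (if cls c₂ i = cls c₂ j then offb L i j else 0) else 0) =
          ∑ c₁, ∑ j, ∑ c₂,
          (if cls c₁ i = cls c₁ j then (if cls c₂ i = cls c₂ j then offb L i j else 0) else 0) :=
        fun i => Finset.sum_comm
      simp_rw [a1]
      rw [Finset.sum_comm]
      refine Finset.sum_congr rfl fun c₁ _ => ?_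
      have a2 : ∀ i, ∑ j, ∑ c₂,
          (if cls c₁ i = cls c₁ j then (if cls c₂ i = cls c₂ j then offb L i j else 0) else 0) =
          ∑ c₂, ∑ j,
          (if cls c₁ i = cls c₁ j then (if cls c₂ i = cls c₂ j then offb L i j else 0) else 0) :=
        fun i => Finset.sum_comm
      simp_rw [a2]
      rw [Finset.sum_comm]
    rw [h2]
    have h3 : ∀ c₁ c₂ : Fin r, ∑ i, ∑ j,
        (if cls c₁ i = cls c₁ j then (if cls c₂ i = cls c₂ j then offb L i j else 0) else 0) ≤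
        (if c₂ = c₁ then M1 c₁ else 0) + 2 * C := by
      intro c₁ c₂
      by_cases h : c₂ = c₁
      · subst h
        rw [if_pos rfl]
        have : ∑ i, ∑ j, (if cls c₂ i = cls c₂ j then
            (if cls c₂ i = cls c₂ j then offb L i j else 0) else 0) = M1 c₂ := by
          simp only [hM1]
          refine Finset.sum_congr rfl fun i _ => Finset.sum_congr rfl fun j _ => ?_
          split_ifs <;> rfl
        rw [this]
        linarith
      · rw [if_neg h, zero_add]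
        exact hM2 c₁ c₂ (Ne.symm h)
    calc _ ≤ ∑ c₁, ∑ c₂, ((if c₂ = c₁ then M1 c₁ else 0) + 2 * C) :=
          Finset.sum_le_sum fun c₁ _ => Finset.sum_le_sum fun c₂ _ => h3 c₁ c₂
      _ = _ := by
          simp only [Finset.sum_add_distrib, Finset.sum_ite_eq', Finset.mem_univ, if_true,
            Finset.sum_const, Finset.card_univ, Fintype.card_fin, nsmul_eq_mul]
          ring
  -- combination
  have hsum : ∑ i, ∑ j, (ker cls θ i j) ^ 2 * beta L i j =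
      ∑ i, ∑ j, offb L i j - 2 / θ * ∑ c, M1 c + 1 / θ ^ 2 * ∑ i, ∑ j, offb L i j * mcls cls i j ^ 2 := by
    simp_rw [ker_sq_beta]
    rw [← e1]
    simp only [Finset.sum_add_distrib, Finset.sum_sub_distrib, ← Finset.mul_sum]
  rw [hsum]
  have hM1sum : c * (r:ℝ) ^ 2 ≤ ∑ c', M1 c' := by
    calc c * (r:ℝ) ^ 2 ≤ r * (2 * c * r - 2 / 3 * C) := by
          have hr0 : (0:ℝ) ≤ r := Nat.cast_nonneg r
          nlinarith
      _ = ∑ _c' : Fin r, (2 * c * r - 2 / 3 * C) := by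
          rw [Finset.sum_const, Finset.card_univ, Fintype.card_fin, nsmul_eq_mul]
      _ ≤ _ := Finset.sum_le_sum fun c' _ => hM1low c'
  have hrR : (r:ℝ) = A * Λ := by rw [hr]; push_cast; ring
  have hr2 : (r:ℝ) ^ 2 = A * (r * Λ) := by rw [hrR]; ring
  have hτ1 : (1:ℝ) ≤ r * Λ := by
    have h1 : (1:ℝ) ≤ Λ := by exact_mod_cast hΛ
    have h2 : (1:ℝ) ≤ A := by exact_mod_cast hA1
    rw [hrR]
    nlinarith [mul_nonneg (sub_nonneg.2 h1) (sub_nonneg.2 h2)]
  set τ : ℝ := (r:ℝ) * Λ with hτ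
  have hMS : 0 ≤ ∑ c', M1 c' := le_trans (by positivity) hM1sum
  -- bound the combination
  have f1 : 1 / θ ^ 2 * ∑ i, ∑ j, offb L i j * mcls cls i j ^ 2 ≤
      1 / θ ^ 2 * (∑ c, M1 c + (r:ℝ) ^ 2 * (2 * C)) := mul_le_mul_of_nonneg_left e2 (by positivity)
  have f2 : 1 / θ ^ 2 ≤ 1 / θ := by
    apply one_div_le_one_div_of_le hθ0
    nlinarith
  have f3 : (1 / θ ^ 2 - 2 / θ) * ∑ c', M1 c' ≤ -(1 / θ) * (c * (r:ℝ) ^ 2) := by
    have h1 : 1 / θ ^ 2 - 2 / θ ≤ -(1 / θ) := by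
      have : (2:ℝ) / θ = 1 / θ + 1 / θ := by ring
      rw [this]; linarith
    calc (1 / θ ^ 2 - 2 / θ) * ∑ c', M1 c' ≤ -(1 / θ) * ∑ c', M1 c' :=
          mul_le_mul_of_nonneg_right h1 hMS
      _ ≤ _ := by
          have : 0 ≤ 1 / θ := by positivity
          nlinarith
  have f4 : -(1 / θ) * (c * (r:ℝ) ^ 2) + 1 / θ ^ 2 * ((r:ℝ) ^ 2 * (2 * C)) =
      - (c ^ 2 * (r:ℝ) ^ 2 / (8 * C)) := by
    rw [hθ]; field_simp; ring
  have f5 : 4 * C * τ ≤ c ^ 2 * (r:ℝ) ^ 2 / (8 * C) := by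
    rw [hr2, le_div_iff₀ (by positivity)]
    have : 0 ≤ τ := by linarith
    nlinarith [mul_le_mul_of_nonneg_right hA this]
  have f6 : ∑ i, ∑ j, offb L i j ≤ C * (1 + τ) := hT
  have f7 : C ≤ C * τ := by nlinarith
  nlinarith

end Pool.Agent.Helper23.PZ
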