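import Mathlib
import Pool.Agent.Helper23.PZ.Energy

/-! The kernel is a combination of products of sign functions; the inequality for one block. -/

set_option autoImplicit false
set_option linter.unusedSectionVars false

namespace Pool.Agent.Helper23.PZ

open Finset

/-- the sign of a Boolean -/
def sgb (b : Bool) : ℝ := if b then 1 else -1

theorem sgb_isSign {ι : Type*} (σ : ι → Bool) : IsSign (fun i => sgb (σ i)) := by
  intro i
  unfold sgb
  by_cases h : σ i <;> simp [h]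

theorem sgb_not (b : Bool) : sgb (!b) = - sgb b := by
  cases b <;> simp [sgb]

theorem sum_bool_signs {V : Type*} [Fintype V] [DecidableEq V] (a b : V) :
    ∑ σ : V → Bool, sgb (σ a) * sgb (σ b) = if a = b then (2:ℝ) ^ Fintype.card V else 0 := by
  split_ifs with h
  · subst h
    have : ∀ σ : V → Bool, sgb (σ a) * sgb (σ a) = 1 := fun σ => (sgb_isSign σ).sq a
    simp_rw [this]
    rw [Finset.sum_const, Finset.card_univ, Fintype.card_fun, Fintype.card_bool, nsmul_eq_mul]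
    push_cast; ring
  · -- flip at `a`
    have hinv : Function.Involutive (fun σ : V → Bool => Function.update σ a (!(σ a))) := by
      intro σ
      funext v
      by_cases hv : v = a
      · subst hv; simp
      · simp [Function.update_of_ne hv]
    set e : Equiv.Perm (V → Bool) := Function.Involutive.toPerm _ hinv with he
    have h1 := Equiv.sum_comp e (fun σ : V → Bool => sgb (σ a) * sgb (σ b))
    have h2 : ∀ σ : V → Bool, sgb ((e σ) a) * sgb ((e σ) b) =
        - (sgb (σ a) * sgb (σ b)) := by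
      intro σ
      have e1 : (e σ) a = !(σ a) := by simp [he, Function.Involutive.toPerm]
      have e2 : (e σ) b = σ b := by
        simp [he, Function.Involutive.toPerm, Function.update_of_ne (Ne.symm h)]
      rw [e1, e2, sgb_not]; ring
    simp_rw [h2] at h1
    rw [Finset.sum_neg_distrib] at h1
    linarith

theorem ker_decomp {Ω V : Type} [Fintype Ω] [DecidableEq Ω] [Fintype V] [DecidableEq V] {r : ℕ}
    (cls : Fin r → Ω → V) {θ : ℝ} (hθ : 0 < θ) :
    ∃ (A : Type) (_ : Fintype A) (w : A → ℝ) (u : A → Ω → ℝ), (∀ α, IsSign (u α)) ∧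
      ∑ α, |w α| ≤ 2 + 2 * r / θ ∧ ∀ i j, ker cls θ i j = ∑ α, w α * u α i * u α j := by
  refine ⟨Unit ⊕ ((Fin r × (V → Bool)) ⊕ (Ω → Bool)), inferInstance,
    Sum.elim (fun _ => 1) (Sum.elim (fun _ => -(1 / θ) / 2 ^ Fintype.card V)
      (fun _ => (r / θ - 1) / 2 ^ Fintype.card Ω)),
    Sum.elim (fun _ _ => 1) (Sum.elim (fun cs i => sgb (cs.2 (cls cs.1 i)))
      (fun ξ i => sgb (ξ i))), ?_, ?_, ?_⟩
  · rintro (_ | ⟨c, σ⟩ | ξ)
    · intro i; exact Or.inl rfl
    · intro i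
      exact sgb_isSign σ (cls c i)
    · exact sgb_isSign ξ
  · have hV : (0:ℝ) < 2 ^ Fintype.card V := by positivity
    have hΩ : (0:ℝ) < 2 ^ Fintype.card Ω := by positivity
    simp only [Fintype.sum_sum_type, Sum.elim_inl, Sum.elim_inr, Finset.sum_const, Finset.card_univ,
      Fintype.card_prod, Fintype.card_fun, Fintype.card_bool, Fintype.card_fin, nsmul_eq_mul,
      Fintype.card_unit, abs_one, Nat.cast_one, one_mul]
    have e1 : |(-(1 / θ) / 2 ^ Fintype.card V)| = 1 / θ / 2 ^ Fintype.card V := by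
      rw [abs_div, abs_neg, abs_of_pos (by positivity : 0 < 1 / θ), abs_of_pos hV]
    have e2 : |((r:ℝ) / θ - 1) / 2 ^ Fintype.card Ω| ≤ ((r:ℝ) / θ + 1) / 2 ^ Fintype.card Ω := by
      rw [abs_div, abs_of_pos hΩ]
      apply div_le_div_of_nonneg_right _ hΩ.le
      have h0 : 0 ≤ (r:ℝ) / θ := by positivity
      rw [abs_le]; constructor <;> linarith
    rw [e1]
    push_cast
    have e3 : (2:ℝ) ^ Fintype.card Ω * |((r:ℝ) / θ - 1) / 2 ^ Fintype.card Ω| ≤ (r:ℝ) / θ + 1 := by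
      calc (2:ℝ) ^ Fintype.card Ω * |((r:ℝ) / θ - 1) / 2 ^ Fintype.card Ω|
          ≤ (2:ℝ) ^ Fintype.card Ω * (((r:ℝ) / θ + 1) / 2 ^ Fintype.card Ω) :=
            mul_le_mul_of_nonneg_left e2 hΩ.le
        _ = _ := by field_simp
    have e4 : (r:ℝ) * 2 ^ Fintype.card V * (1 / θ / 2 ^ Fintype.card V) = r / θ := by
      field_simp
    have e5 : 2 + 2 * (r:ℝ) / θ = 1 + (r / θ + (r / θ + 1)) := by ring
    rw [e5, e4]
    linarith
  · intro i j
    simp only [Fintype.sum_sum_type, Sum.elim_inl, Sum.elim_inr, Fintype.sum_prod_type,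
      Finset.univ_unique, Finset.sum_const, Finset.card_singleton, one_smul, mul_one]
    have e1 : ∀ c : Fin r, ∑ σ : V → Bool, -(1 / θ) / 2 ^ Fintype.card V * sgb (σ (cls c i)) *
        sgb (σ (cls c j)) = -(1 / θ) * (if cls c i = cls c j then (1:ℝ) else 0) := by
      intro c
      have := sum_bool_signs (cls c i) (cls c j)
      calc _ = -(1 / θ) / 2 ^ Fintype.card V * ∑ σ : V → Bool, sgb (σ (cls c i)) *
            sgb (σ (cls c j)) := by
            rw [Finset.mul_sum]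
            exact Finset.sum_congr rfl fun σ _ => by ring
        _ = _ := by
            rw [this]
            split_ifs
            · field_simp
            · ring
    have e2 : ∑ ξ : Ω → Bool, (r / θ - 1) / 2 ^ Fintype.card Ω * sgb (ξ i) * sgb (ξ j) =
        (r / θ - 1) * (if i = j then (1:ℝ) else 0) := by
      have := sum_bool_signs i j
      calc _ = (r / θ - 1) / 2 ^ Fintype.card Ω * ∑ ξ : Ω → Bool, sgb (ξ i) * sgb (ξ j) := by
            rw [Finset.mul_sum]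
            exact Finset.sum_congr rfl fun σ _ => by ring
        _ = _ := by
            rw [this]
            split_ifs
            · field_simp
            · ring
    simp_rw [e1]
    rw [e2, ← Finset.mul_sum]
    unfold ker mcls
    by_cases hij : i = j
    · subst hij
      simp only [if_true, Finset.sum_const, Finset.card_univ, Fintype.card_fin, nsmul_eq_mul]
      field_simp
      ring
    · rw [if_neg hij, if_neg hij]
      ring

section block

variable {Ω : Type} [Fintype Ω] [DecidableEq Ω] {Y : Type*} [NormedAddCommGroup Y] [NormedSpace ℝ Y]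

theorem tup_smul {Z : Type*} [AddCommGroup Z] [Module ℝ Z] (j : ℕ) :
    ∀ (L : MultilinearMap ℝ (fun _ : Fin (j + 2) => Z) ℝ) (a : ℝ) (h v : Z),
      L (tup j (a • h) v) = a ^ j * L (tup j h v) := by
  induction j with
  | zero =>
    intro L a h v
    rw [tup_zero_eq, tup_zero_eq]; simp
  | succ j ih =>
    intro L a h v
    rw [tup_succ, tup_succ]
    have e1 : L (Fin.cons (n := j + 2) (α := fun _ => Z) (a • h) (tup j (a • h) v)) =
        (L.curryLeft (a • h)) (tup j (a • h) v) := rfl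
    have e2 : L (Fin.cons (n := j + 2) (α := fun _ => Z) h (tup j h v)) =
        (L.curryLeft h) (tup j h v) := rfl
    rw [e1, e2, map_smul, _root_.smul_apply, ih, smul_eq_mul, pow_succ]
    ring

theorem comp_tup {Z W : Type*} (f : Z → W) (j : ℕ) (h v : Z) :
    (fun k => f (tup j h v k)) = tup j (f h) (f v) := by
  funext k
  unfold tup
  split_ifs <;> rfl

/-- the form `D^(j+2) N(x₀)` on the block -/
noncomputable def Lj (N : Y → ℝ) (x₀ : Y) (ι : (Ω → ℝ) →ₗ[ℝ] Y) (j : ℕ) :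
    MultilinearMap ℝ (fun _ : Fin (j + 2) => (Ω → ℝ)) ℝ :=
  (iteratedFDeriv ℝ (j + 2) N x₀).toMultilinearMap.compLinearMap (fun _ => ι)

theorem Lj_tup (N : Y → ℝ) (x₀ : Y) (ι : (Ω → ℝ) →ₗ[ℝ] Y) (j : ℕ) (h v : Ω → ℝ) :
    Lj N x₀ ι j (tup j h v) = iteratedFDeriv ℝ (j + 2) N x₀ (tup j (ι h) (ι v)) := by
  rw [← comp_tup ι]
  rfl

theorem Lj_bound (N : Y → ℝ) (x₀ : Y) (ι : (Ω → ℝ) →ₗ[ℝ] Y) (j : ℕ) {B : ℝ}
    (hB : ∀ ρ : Ω → ℝ, IsSign ρ → ‖ι ρ‖ ≤ B) (m : Fin (j + 2) → Ω → ℝ) (hm : ∀ l, IsSign (m l)) :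
    |Lj N x₀ ι j m| ≤ ‖iteratedFDeriv ℝ (j + 2) N x₀‖ * B ^ (j + 2) := by
  have h1 := (iteratedFDeriv ℝ (j + 2) N x₀).le_opNorm (fun l => ι (m l))
  have h2 : ∏ l, ‖ι (m l)‖ ≤ ∏ _l : Fin (j + 2), B :=
    Finset.prod_le_prod (fun _ _ => norm_nonneg _) fun l _ => hB _ (hm l)
  rw [Finset.prod_const, Finset.card_univ, Fintype.card_fin] at h2
  exact h1.trans (mul_le_mul_of_nonneg_left h2 (norm_nonneg _))

/-- the sum over the block -/
noncomputable def Qj (N : Y → ℝ) (x₀ : Y) (ι : (Ω → ℝ) →ₗ[ℝ] Y) (ε : Ω → ℝ) (H : Ω → Ω → ℝ) (j : ℕ) :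
    ℝ :=
  ∑ i, Lj N x₀ ι j (tup j (fun k => ε k * H i k) (Pi.single i (1:ℝ)))

theorem block_ineq (N : Y → ℝ) (x₀ : Y) (n : ℕ) (r₀ M : ℝ)
    (hstar : ∀ h v : Y, ‖h‖ ≤ r₀ →
      0 ≤ ∑ j ∈ Finset.range n, ((j.factorial : ℝ))⁻¹ * iteratedFDeriv ℝ (j + 2) N x₀ (tup j h v) +
        M * ‖h‖ ^ n * ‖v‖ ^ 2)
    (ι : (Ω → ℝ) →ₗ[ℝ] Y) (ε : Ω → ℝ) (H : Ω → Ω → ℝ) (s : ℝ)
    (hs : ∀ i, ‖s • ι (fun k => ε k * H i k)‖ ≤ r₀) :
    0 ≤ ∑ j ∈ Finset.range n, ((j.factorial : ℝ))⁻¹ * (s ^ j + (-s) ^ j) * Qj N x₀ ι ε H j +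
      2 * ∑ i, M * ‖s • ι (fun k => ε k * H i k)‖ ^ n * ‖ι (Pi.single i (1:ℝ))‖ ^ 2 := by
  have key : ∀ i, 0 ≤ ∑ j ∈ Finset.range n, ((j.factorial : ℝ))⁻¹ * (s ^ j + (-s) ^ j) *
      Lj N x₀ ι j (tup j (fun k => ε k * H i k) (Pi.single i (1:ℝ))) +
      2 * (M * ‖s • ι (fun k => ε k * H i k)‖ ^ n * ‖ι (Pi.single i (1:ℝ))‖ ^ 2) := by
    intro i
    set h : Y := ι (fun k => ε k * H i k) with hh
    set v : Y := ι (Pi.single i (1:ℝ)) with hv
    have h1 := hstar (s • h) v (hs i)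
    have h2 := hstar ((-s) • h) v (by rw [neg_smul, norm_neg]; exact hs i)
    have e : ∀ (a : ℝ) (j : ℕ), iteratedFDeriv ℝ (j + 2) N x₀ (tup j (a • h) v) =
        a ^ j * Lj N x₀ ι j (tup j (fun k => ε k * H i k) (Pi.single i (1:ℝ))) := by
      intro a j
      rw [Lj_tup]
      exact tup_smul j (iteratedFDeriv ℝ (j + 2) N x₀).toMultilinearMap a h v
    simp_rw [e] at h1 h2
    rw [show ‖(-s) • h‖ = ‖s • h‖ by rw [neg_smul, norm_neg]] at h2
    have h3 : ∑ j ∈ Finset.range n, ((j.factorial : ℝ))⁻¹ * (s ^ j + (-s) ^ j) *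
      Lj N x₀ ι j (tup j (fun k => ε k * H i k) (Pi.single i (1:ℝ))) =
      ∑ j ∈ Finset.range n, ((j.factorial : ℝ))⁻¹ * (s ^ j *
        Lj N x₀ ι j (tup j (fun k => ε k * H i k) (Pi.single i (1:ℝ)))) +
      ∑ j ∈ Finset.range n, ((j.factorial : ℝ))⁻¹ * ((-s) ^ j *
        Lj N x₀ ι j (tup j (fun k => ε k * H i k) (Pi.single i (1:ℝ)))) := by
      rw [← Finset.sum_add_distrib]
      exact Finset.sum_congr rfl fun j _ => by ring
    rw [h3]
    linarith
  have h4 := Finset.sum_nonneg (fun i (_ : i ∈ (univ : Finset Ω)) => key i)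
  rw [Finset.sum_add_distrib, ← Finset.mul_sum, Finset.sum_comm] at h4
  have h5 : ∑ j ∈ Finset.range n, ((j.factorial : ℝ))⁻¹ * (s ^ j + (-s) ^ j) * Qj N x₀ ι ε H j =
      ∑ j ∈ Finset.range n, ∑ i, ((j.factorial : ℝ))⁻¹ * (s ^ j + (-s) ^ j) *
      Lj N x₀ ι j (tup j (fun k => ε k * H i k) (Pi.single i (1:ℝ))) := by
    refine Finset.sum_congr rfl fun j _ => ?_
    unfold Qj
    rw [Finset.mul_sum]
  rw [h5]
  exact h4

end block

end Pool.Agent.Helper23.PZ
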