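import Mathlib
import Pool.Agent.Helper23.PZ.Kernel

/-! The contradiction on one block. -/

set_option autoImplicit false
set_option linter.unusedSectionVars false

namespace Pool.Agent.Helper23.PZ

open Finset

theorem Bil.of_multilinear {Y : Type*} [NormedAddCommGroup Y] [NormedSpace ℝ Y]
    (T : ContinuousMultilinearMap ℝ (fun _ : Fin 2 => Y) ℝ) : Bil (fun x y : Y => T ![x, y]) := by
  have upd0 : ∀ (a b a' : Y), Function.update ![a, b] 0 a' = ![a', b] := by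
    intro a b a'
    funext l
    fin_cases l <;> rfl
  have upd1 : ∀ (a b a' : Y), Function.update ![a, b] 1 a' = ![a, a'] := by
    intro a b a'
    funext l
    fin_cases l <;> rfl
  refine ⟨fun a a' b => ?_, fun a b b' => ?_, fun s a b => ?_, fun s a b => ?_⟩
  · have := T.map_update_add ![a, b] 0 a a'
    rwa [upd0, upd0, upd0] at this
  · have := T.map_update_add ![a, b] 1 b b'
    rwa [upd1, upd1, upd1] at this
  · have := T.map_update_smul ![a, b] 0 s a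
    rwa [upd0, upd0, smul_eq_mul] at this
  · have := T.map_update_smul ![a, b] 1 s b
    rwa [upd1, upd1, smul_eq_mul] at this

section

variable {Ω V : Type} [Fintype Ω] [DecidableEq Ω] [Fintype V] [DecidableEq V]
  {Y : Type*} [NormedAddCommGroup Y] [NormedSpace ℝ Y]

/-- choice of the signs in order four -/
theorem exists_eps {L : (Ω → ℝ) → (Ω → ℝ) → (Ω → ℝ) → (Ω → ℝ) → ℝ} (hL : Sym4 L)
    (H : Ω → Ω → ℝ) : ∃ ε : Ω → ℝ, IsSign ε ∧
      ∑ i, L (fun k => ε k * H i k) (fun k => ε k * H i k) (Pi.single i 1) (Pi.single i 1) ≤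
        ∑ i, ∑ j, (H i j) ^ 2 * beta L i j := by
  set D : (Ω → ℝ) → (Ω → ℝ) → ℝ := fun x y =>
    ∑ i, L (fun k => x k * H i k) (fun k => y k * H i k) (Pi.single i 1) (Pi.single i 1) with hD
  have hDB : Bil D := by
    refine ⟨fun a a' b => ?_, fun a b b' => ?_, fun s a b => ?_, fun s a b => ?_⟩
    · simp only [hD]
      rw [← Finset.sum_add_distrib]
      refine Finset.sum_congr rfl fun i _ => ?_
      rw [← hL.add]
      congr 1
      funext k; simp [add_mul]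
    · simp only [hD]
      rw [← Finset.sum_add_distrib]
      refine Finset.sum_congr rfl fun i _ => ?_
      rw [← hL.add2]
      congr 1
      funext k; simp [add_mul]
    · simp only [hD]
      rw [Finset.mul_sum]
      refine Finset.sum_congr rfl fun i _ => ?_
      rw [← hL.smul]
      congr 1
      funext k; simp [mul_assoc]
    · simp only [hD]
      rw [Finset.mul_sum]
      refine Finset.sum_congr rfl fun i _ => ?_
      rw [← hL.smul2]
      congr 1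
      funext k; simp [mul_assoc]
  obtain ⟨ε, hε, h⟩ := exists_signs_bil hDB.neg (fun i : Ω => (Pi.single i (1:ℝ) : Ω → ℝ)) univ
  refine ⟨ε, hε, ?_⟩
  simp only [sum_single_signs, Finset.sum_neg_distrib] at h
  have h1 : D ε ε ≤ ∑ j, D (Pi.single j 1) (Pi.single j 1) := by linarith
  refine h1.trans (le_of_eq ?_)
  simp only [hD]
  rw [Finset.sum_comm]
  refine Finset.sum_congr rfl fun i _ => Finset.sum_congr rfl fun j _ => ?_
  have e1 : (fun k => (Pi.single j (1:ℝ) : Ω → ℝ) k * H i k) = H i j • (Pi.single j (1:ℝ) : Ω → ℝ) := by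
    funext k
    by_cases hk : k = j
    · subst hk; simp
    · simp [hk]
  rw [e1, hL.smul, hL.smul2]
  have hsym : L (Pi.single j 1) (Pi.single j 1) (Pi.single i 1) (Pi.single i 1) = beta L i j := by
    unfold beta
    rw [hL.swap2, hL.swap1, hL.swap3, hL.swap2]
  rw [hsym]; ring

theorem final_block (N : Y → ℝ) (x₀ : Y) {p r Λ A t : ℕ}
    (hN : ContDiffAt ℝ ((4 : ℕ) : WithTop ℕ∞) N x₀) (r₀ M : ℝ) (hM : 0 ≤ M)
    (hstar : ∀ h v : Y, ‖h‖ ≤ r₀ →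
      0 ≤ ∑ j ∈ Finset.range (t + 4), ((j.factorial : ℝ))⁻¹ *
        iteratedFDeriv ℝ (j + 2) N x₀ (tup j h v) + M * ‖h‖ ^ (t + 4) * ‖v‖ ^ 2)
    (ι : (Ω → ℝ) →ₗ[ℝ] Y) (cls : Fin r → Ω → V) (c C : ℝ) (hc : 0 < c) (hcC : c ≤ C)
    (hC4 : ‖iteratedFDeriv ℝ 4 N x₀‖ ≤ C)
    (hlow : ∀ x : Ω → ℝ, c * ‖ι x‖ ^ 4 ≤ ((4:ℕ).factorial : ℝ)⁻¹ *
      iteratedFDeriv ℝ 4 N x₀ (fun _ => ι x))
    (hr : r = A * Λ) (hAΛ : A * Λ ≤ p) (hpA : p ≤ 8 * A * Λ) (hA2 : 2 ≤ A) (hΛ : 1 ≤ Λ)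
    (hp4 : 4 ≤ p)
    (hA : 32 * C ^ 2 ≤ c ^ 2 * A) (hrC : C ≤ c * r)
    (card_V : Fintype.card V = p) (card_Ω : Fintype.card Ω = p ^ (t + 1))
    (card_clique : ∀ c v, (univ.filter fun i => cls c i = v).card = p ^ t)
    (agree : ∀ i j, i ≠ j → (univ.filter fun c => cls c i = cls c j).card ≤ t)
    (norm_le : ∀ x : Ω → ℝ, (∀ i, |x i| ≤ 1) → ‖ι x‖ ^ 4 ≤ 1 + (r : ℝ) * Λ)
    (norm_clique : ∀ c v (ρ : Ω → ℝ), IsSign ρ →
      (r : ℝ) / (4 * p) ≤ ‖ι (fun i => if cls c i = v then ρ i else 0)‖ ^ 4)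
    (norm_point : ∀ i, ‖ι (Pi.single i 1)‖ ^ 4 ≤ 2 / (p : ℝ) ^ (t + 1))
    (norm_two : ∀ c c', c ≠ c' → ∀ v v' (ρ : Ω → ℝ), IsSign ρ →
      ‖ι (fun i => if cls c i = v ∧ cls c' i = v' then ρ i else 0)‖ ^ 4 ≤ 2 / (p : ℝ) ^ 2)
    (C₂ : ℝ)
    (hO2 : (∑ i : Ω, iteratedFDeriv ℝ 2 N x₀ (fun _ => ι (Pi.single i 1))) * (p:ℝ) ^ 5 ≤ C₂)
    (hrad : ((t:ℝ) + 1) ≤ r₀ * p)
    (hbig : 32 * A * (2 * C₂ + ∑ j ∈ Finset.range (t + 4), 2 * ‖iteratedFDeriv ℝ (j + 2) N x₀‖ +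
      4 * M * ((t:ℝ) + 1) ^ (t + 4)) < C * p) : False := by
  -- parameters
  have hC : 0 < C := lt_of_lt_of_le hc hcC
  have hp0 : (0:ℝ) < p := by exact_mod_cast (by omega : 0 < p)
  have hp1 : (1:ℝ) ≤ p := by exact_mod_cast (by omega : 1 ≤ p)
  set q : ℝ := Real.sqrt p with hq
  have hq2 : q ^ 2 = p := Real.sq_sqrt hp0.le
  have hq0 : 0 < q := Real.sqrt_pos.2 hp0
  have hq1 : 1 ≤ q := by
    rw [hq]; exact Real.one_le_sqrt.2 hp1
  set θ : ℝ := 4 * (C / c) with hθ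
  have hCc : 1 ≤ C / c := (one_le_div hc).2 hcC
  have hθ4 : 4 ≤ θ := by rw [hθ]; linarith
  have hθ0 : 0 < θ := by linarith
  have hrR : (r:ℝ) = A * Λ := by rw [hr]; push_cast; ring
  have hAR : (2:ℝ) ≤ A := by exact_mod_cast hA2
  have hΛR : (1:ℝ) ≤ Λ := by exact_mod_cast hΛ
  have hAΛR : (A:ℝ) * Λ ≤ p := by exact_mod_cast hAΛ
  have hpAR : (p:ℝ) ≤ 8 * A * Λ := by exact_mod_cast hpA
  have hp4R : (4:ℝ) ≤ p := by exact_mod_cast hp4
  have hτ : 1 + (r:ℝ) * Λ ≤ q ^ 4 := by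
    have e : q ^ 4 = (p:ℝ) ^ 2 := by rw [← hq2]; ring
    rw [e, hrR]
    -- `AΛ·Λ ≤ p Λ`, `2 Λ ≤ AΛ ≤ p`
    have h1 : 2 * (Λ:ℝ) ≤ p := by nlinarith
    have h2 : (A:ℝ) * Λ * Λ ≤ p * Λ := by nlinarith
    nlinarith
  have hτlow : q ^ 4 ≤ 64 * A * (r * Λ) := by
    have e : q ^ 4 = (p:ℝ) ^ 2 := by rw [← hq2]; ring
    rw [e, hrR]
    have h1 : (p:ℝ) ^ 2 ≤ (8 * A * Λ) ^ 2 := pow_le_pow_left₀ hp0.le hpAR 2
    calc (p:ℝ) ^ 2 ≤ (8 * A * Λ) ^ 2 := h1
      _ = _ := by ring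
  have root4 : ∀ y : ℝ, 0 ≤ y → y ^ 4 ≤ q ^ 4 → y ≤ q := fun y hy h =>
    le_of_pow_le_pow_left₀ (by norm_num) hq0.le h
  have hsup : ∀ x : Ω → ℝ, (∀ i, |x i| ≤ 1) → ‖ι x‖ ≤ q := fun x hx =>
    root4 _ (norm_nonneg _) ((norm_le x hx).trans hτ)
  have hsign : ∀ ρ : Ω → ℝ, IsSign ρ → ‖ι ρ‖ ≤ q := fun ρ hρ =>
    hsup ρ fun i => (hρ.abs i).le
  set κ : ℝ := (t:ℝ) + 1 with hκ
  have hκ0 : 0 < κ := by positivity
  have hsupκ : ∀ x : Ω → ℝ, (∀ i, |x i| ≤ κ) → ‖ι x‖ ≤ κ * q := by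
    intro x hx
    have h1 := hsup (κ⁻¹ • x) (fun i => by
      rw [Pi.smul_apply, smul_eq_mul, abs_mul, abs_of_pos (inv_pos.2 hκ0), inv_mul_le_iff₀ hκ0, mul_one]
      exact hx i)
    rw [map_smul, norm_smul, Real.norm_of_nonneg (inv_nonneg.2 hκ0.le), inv_mul_le_iff₀ hκ0] at h1
    exact h1
  -- the quartic form
  set L : (Ω → ℝ) → (Ω → ℝ) → (Ω → ℝ) → (Ω → ℝ) → ℝ := fun a b c d =>
    iteratedFDeriv ℝ 4 N x₀ ![ι a, ι b, ι c, ι d] with hLdef
  have hL : Sym4 L := (sym4 hN).comp ι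
  have hup : ∀ a b, L a a b b ≤ C * (‖ι a‖ ^ 2 * ‖ι b‖ ^ 2) := by
    intro a b
    have h1 := (iteratedFDeriv ℝ 4 N x₀).le_opNorm ![ι a, ι a, ι b, ι b]
    rw [Fin.prod_univ_four, Real.norm_eq_abs] at h1
    have h2 : ‖ι a‖ * ‖ι a‖ * ‖ι b‖ * ‖ι b‖ = ‖ι a‖ ^ 2 * ‖ι b‖ ^ 2 := by ring
    have h3 : ‖iteratedFDeriv ℝ 4 N x₀‖ * (‖ι a‖ ^ 2 * ‖ι b‖ ^ 2) ≤ C * (‖ι a‖ ^ 2 * ‖ι b‖ ^ 2) :=
      mul_le_mul_of_nonneg_right hC4 (by positivity)
    refine (le_abs_self _).trans (h1.trans ?_)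
    simp only [Matrix.cons_val_zero, Matrix.cons_val_one, Matrix.cons_val]
    rw [h2]
    exact h3
  have hlow' : ∀ x, 24 * c * ‖ι x‖ ^ 4 ≤ L x x x x := by
    intro x
    have h1 := hlow x
    have h2 : iteratedFDeriv ℝ 4 N x₀ (fun _ => ι x) = L x x x x := by
      simp only [hLdef]
      congr 1
      funext l
      fin_cases l <;> rfl
    rw [h2] at h1
    have h3 : ((4:ℕ).factorial : ℝ) = 24 := by norm_num [Nat.factorial]
    rw [h3] at h1
    linarith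
  have hE := energy hL (fun x => ‖ι x‖) C c hc hcC hup hlow' (p := p) (t := t) (Λ := Λ) (A := A)
    (by omega) hr hΛ (by omega) hA hrC cls card_V card_clique
    (fun ρ hρ => norm_le ρ fun i => (hρ.abs i).le) norm_clique norm_point norm_two
  obtain ⟨ε, hε, hεle⟩ := exists_eps hL (ker cls θ)
  obtain ⟨AA, _, w, u, hu, hW, hker⟩ := ker_decomp cls hθ0
  set H : Ω → Ω → ℝ := ker cls θ with hH
  -- bound of the kernel
  have hHb : ∀ i k, |ε k * H i k| ≤ κ := by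
    intro i k
    rw [abs_mul, hε.abs, one_mul, hH]
    unfold ker
    split_ifs with hik
    · rw [abs_zero]; exact hκ0.le
    · have h1 : mcls cls i k ≤ t := by
        unfold mcls
        rw [Finset.sum_boole]
        exact_mod_cast agree i k hik
      have h0 : 0 ≤ mcls cls i k := by
        unfold mcls
        exact Finset.sum_nonneg fun c _ => by split_ifs <;> norm_num
      have h2 : mcls cls i k / θ ≤ t := by
        rw [div_le_iff₀ hθ0]
        have : (0:ℝ) ≤ t := Nat.cast_nonneg t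
        nlinarith
      have h3 : 0 ≤ mcls cls i k / θ := div_nonneg h0 hθ0.le
      rw [abs_le]
      constructor <;> linarith [show κ = (t:ℝ) + 1 from hκ]
  set s : ℝ := (q ^ 6)⁻¹ with hs
  have hs0 : 0 < s := by positivity
  have hhb : ∀ i, ‖s • ι (fun k => ε k * H i k)‖ ≤ κ * (q ^ 5)⁻¹ := by
    intro i
    rw [norm_smul, Real.norm_of_nonneg hs0.le]
    calc s * ‖ι (fun k => ε k * H i k)‖ ≤ s * (κ * q) :=
          mul_le_mul_of_nonneg_left (hsupκ _ (hHb i)) hs0.le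
      _ = κ * (q ^ 5)⁻¹ := by rw [hs]; field_simp
  have hsr : ∀ i, ‖s • ι (fun k => ε k * H i k)‖ ≤ r₀ := by
    intro i
    refine (hhb i).trans ?_
    have h1 : (p:ℝ) ≤ q ^ 5 := by
      calc (p:ℝ) = q ^ 2 := hq2.symm
        _ ≤ q ^ 5 := pow_le_pow_right₀ hq1 (by norm_num)
    have hr0 : 0 < r₀ := by
      by_contra hcon
      push Not at hcon
      nlinarith
    rw [← div_eq_mul_inv, div_le_iff₀ (by positivity)]
    calc κ ≤ r₀ * p := hrad
      _ ≤ r₀ * q ^ 5 := mul_le_mul_of_nonneg_left h1 hr0.le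
  have hblock := block_ineq N x₀ (t + 4) r₀ M hstar ι ε H s hsr
  -- W ≤ q²
  have hWq : ∑ α, |w α| ≤ q ^ 2 := by
    refine hW.trans ?_
    rw [hq2]
    have h1 : 2 * (r:ℝ) / θ ≤ p / 2 := by
      rw [div_le_iff₀ hθ0]
      nlinarith
    linarith
  have hW0 : 0 ≤ ∑ α, |w α| := Finset.sum_nonneg fun _ _ => abs_nonneg _
  -- bounds of `Q_j`
  have hQ : ∀ j, |Qj N x₀ ι ε H j| ≤ (q ^ 2) ^ j * (‖iteratedFDeriv ℝ (j + 2) N x₀‖ * q ^ (j + 2)) := by
    intro j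
    have h1 := signsum w u hu ε hε j (Lj N x₀ ι j)
      (‖iteratedFDeriv ℝ (j + 2) N x₀‖ * q ^ (j + 2)) (fun m hm => Lj_bound N x₀ ι j hsign m hm)
      (fun _ => 1) (fun _ => Or.inl rfl)
    simp only [one_mul] at h1
    have h2 : Qj N x₀ ι ε H j = ∑ i, Lj N x₀ ι j
        (tup j (fun k => ε k * ∑ α, w α * u α i * u α k) (Pi.single i (1:ℝ))) := by
      unfold Qj
      refine Finset.sum_congr rfl fun i _ => ?_
      simp_rw [hker]
    rw [h2]
    refine h1.trans ?_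
    exact mul_le_mul_of_nonneg_right (pow_le_pow_left₀ hW0 hWq j) (by positivity)
  -- order 2 and order 4
  have hQ0 : Qj N x₀ ι ε H 0 * (p:ℝ) ^ 5 ≤ C₂ := by
    have : Qj N x₀ ι ε H 0 = ∑ i : Ω, iteratedFDeriv ℝ 2 N x₀ (fun _ => ι (Pi.single i 1)) := by
      unfold Qj
      refine Finset.sum_congr rfl fun i _ => ?_
      rw [Lj_tup, tup_zero_eq]
    rw [this]; exact hO2
  have hQ2 : Qj N x₀ ι ε H 2 ≤ -(2 * C * (r * Λ)) := by
    have : Qj N x₀ ι ε H 2 = ∑ i, L (fun k => ε k * H i k) (fun k => ε k * H i k)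
        (Pi.single i 1) (Pi.single i 1) := by
      unfold Qj
      refine Finset.sum_congr rfl fun i _ => ?_
      rw [Lj_tup]
      simp only [hLdef]
      congr 1
      funext l
      fin_cases l <;> rfl
    rw [this]
    exact hεle.trans hE
  -- the terms
  have hp5 : (p:ℝ) ^ 5 = q ^ 10 := by rw [← hq2]; ring
  have hterm : ∀ j, ((j.factorial : ℝ))⁻¹ * (s ^ j + (-s) ^ j) * Qj N x₀ ι ε H j * q ^ 10 ≤
      2 * ‖iteratedFDeriv ℝ (j + 2) N x₀‖ + (if j = 0 then 2 * C₂ else 0) +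
        (if j = 2 then -(C * p / (32 * A)) else 0) := by
    intro j
    have hnn : 0 ≤ ‖iteratedFDeriv ℝ (j + 2) N x₀‖ := norm_nonneg _
    by_cases hj0 : j = 0
    · subst hj0
      simp only [Nat.factorial, Nat.cast_one, inv_one, pow_zero, one_mul]
      rw [if_pos trivial, if_neg (by norm_num)]
      rw [hp5] at hQ0
      nlinarith
    by_cases hj2 : j = 2
    · subst hj2
      rw [if_neg (by norm_num), if_pos rfl]
      have e1 : ((Nat.factorial 2 : ℕ) : ℝ)⁻¹ * (s ^ 2 + (-s) ^ 2) = s ^ 2 := by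
        norm_num [Nat.factorial]; ring
      rw [e1]
      have e2 : s ^ 2 * q ^ 10 = (q ^ 2)⁻¹ := by
        rw [hs]; field_simp
      have e3 : s ^ 2 * Qj N x₀ ι ε H 2 * q ^ 10 = Qj N x₀ ι ε H 2 * (q ^ 2)⁻¹ := by
        rw [← e2]; ring
      rw [e3, hq2]
      have h1 : Qj N x₀ ι ε H 2 * (p:ℝ)⁻¹ ≤ -(2 * C * (r * Λ)) * (p:ℝ)⁻¹ :=
        mul_le_mul_of_nonneg_right hQ2 (by positivity)
      have h2 : -(2 * C * (r * Λ)) * (p:ℝ)⁻¹ ≤ -(C * p / (32 * A)) := by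
        have hq4 : q ^ 4 = (p:ℝ) ^ 2 := by rw [← hq2]; ring
        rw [hq4] at hτlow
        rw [neg_mul, neg_le_neg_iff, ← div_eq_mul_inv, div_le_div_iff₀ (by positivity) hp0]
        nlinarith
      linarith
    rw [if_neg hj0, if_neg hj2]
    by_cases hodd : j = 1 ∨ j = 3
    · have e1 : s ^ j + (-s) ^ j = 0 := by
        rcases hodd with h | h <;> subst h <;> ring
      rw [e1]
      simp only [mul_zero, zero_mul, add_zero]
      positivity
    have hj4 : 4 ≤ j := by omega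
    have hQj := hQ j
    have h1 : |((j.factorial : ℝ))⁻¹ * (s ^ j + (-s) ^ j) * Qj N x₀ ι ε H j * q ^ 10| ≤
        2 * ‖iteratedFDeriv ℝ (j + 2) N x₀‖ := by
      rw [abs_mul, abs_mul, abs_mul]
      have a1 : |((j.factorial : ℝ))⁻¹| ≤ 1 := by
        rw [abs_of_nonneg (by positivity)]
        apply inv_le_one_of_one_le₀
        exact_mod_cast Nat.factorial_pos j
      have a2 : |s ^ j + (-s) ^ j| ≤ 2 * s ^ j := by
        refine (abs_add_le _ _).trans ?_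
        rw [abs_pow, abs_pow, abs_neg, abs_of_pos hs0]
        linarith
      have a3 : |q ^ 10| = q ^ 10 := abs_of_nonneg (by positivity)
      rw [a3]
      have a4 : s ^ j * ((q ^ 2) ^ j * q ^ (j + 2)) * q ^ 10 ≤ 1 := by
        have : s ^ j * ((q ^ 2) ^ j * q ^ (j + 2)) * q ^ 10 = q ^ (3 * j + 12) / q ^ (6 * j) := by
          rw [hs, inv_pow, ← pow_mul, ← pow_mul, div_eq_mul_inv, ← pow_add, mul_comm _ (q ^ (2 * j + (j + 2))),
            mul_assoc, mul_comm _ (q ^ 10), ← mul_assoc, ← pow_add]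
          congr 2
          ring
        rw [this, div_le_one (by positivity)]
        exact pow_le_pow_right₀ hq1 (by omega)
      calc |((j.factorial : ℝ))⁻¹| * |s ^ j + (-s) ^ j| * |Qj N x₀ ι ε H j| * q ^ 10
          ≤ 1 * (2 * s ^ j) * ((q ^ 2) ^ j * (‖iteratedFDeriv ℝ (j + 2) N x₀‖ * q ^ (j + 2))) *
              q ^ 10 := by gcongr
        _ = (s ^ j * ((q ^ 2) ^ j * q ^ (j + 2)) * q ^ 10) * (2 * ‖iteratedFDeriv ℝ (j + 2) N x₀‖) := by
            ring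
        _ ≤ 1 * (2 * ‖iteratedFDeriv ℝ (j + 2) N x₀‖) :=
            mul_le_mul_of_nonneg_right a4 (by positivity)
        _ = _ := one_mul _
    have := (abs_le.1 h1).2
    linarith
  -- the remainder
  have hrem : (2 * ∑ i, M * ‖s • ι (fun k => ε k * H i k)‖ ^ (t + 4) * ‖ι (Pi.single i (1:ℝ))‖ ^ 2) *
      q ^ 10 ≤ 4 * M * κ ^ (t + 4) := by
    have hpt : ∀ i, ‖ι (Pi.single i (1:ℝ))‖ ^ 2 ≤ 2 / q ^ (t + 1) := by
      intro i
      have h1 := norm_point i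
      have h2 : (2:ℝ) / (p:ℝ) ^ (t + 1) ≤ (2 / q ^ (t + 1)) ^ 2 := by
        rw [div_pow, ← pow_mul, ← hq2, ← pow_mul, mul_comm (t + 1) 2]
        apply div_le_div_of_nonneg_right _ (by positivity)
        norm_num
      have h3 : (‖ι (Pi.single i (1:ℝ))‖ ^ 2) ^ 2 ≤ (2 / q ^ (t + 1)) ^ 2 := by
        calc (‖ι (Pi.single i (1:ℝ))‖ ^ 2) ^ 2 = ‖ι (Pi.single i (1:ℝ))‖ ^ 4 := by ring
          _ ≤ _ := h1.trans h2
      exact le_of_pow_le_pow_left₀ two_ne_zero (by positivity) h3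
    have hi : ∀ i : Ω, M * ‖s • ι (fun k => ε k * H i k)‖ ^ (t + 4) * ‖ι (Pi.single i (1:ℝ))‖ ^ 2 ≤
        M * (κ * (q ^ 5)⁻¹) ^ (t + 4) * (2 / q ^ (t + 1)) := by
      intro i
      have := hhb i
      have := hpt i
      gcongr
    have hcard : ((Fintype.card Ω : ℕ) : ℝ) = q ^ (2 * (t + 1)) := by
      rw [card_Ω]; push_cast; rw [← hq2, ← pow_mul]
    calc _ ≤ (2 * ∑ _i : Ω, M * (κ * (q ^ 5)⁻¹) ^ (t + 4) * (2 / q ^ (t + 1))) * q ^ 10 := by
          apply mul_le_mul_of_nonneg_right _ (by positivity : (0:ℝ) ≤ q ^ 10)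
          apply mul_le_mul_of_nonneg_left _ (by norm_num : (0:ℝ) ≤ 2)
          exact Finset.sum_le_sum fun i _ => hi i
      _ = 4 * M * κ ^ (t + 4) * (q ^ (2 * (t + 1)) * q ^ 10 / (q ^ (5 * (t + 4)) * q ^ (t + 1))) := by
          rw [Finset.sum_const, Finset.card_univ, nsmul_eq_mul, hcard, mul_pow, inv_pow, ← pow_mul]
          field_simp
          ring
      _ ≤ 4 * M * κ ^ (t + 4) * 1 := by
          apply mul_le_mul_of_nonneg_left _ (by positivity)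
          rw [div_le_one (by positivity), ← pow_add, ← pow_add]
          exact pow_le_pow_right₀ hq1 (by omega)
      _ = _ := mul_one _
  -- conclusion
  have hsum : (∑ j ∈ Finset.range (t + 4), ((j.factorial : ℝ))⁻¹ * (s ^ j + (-s) ^ j) *
      Qj N x₀ ι ε H j) * q ^ 10 ≤
      ∑ j ∈ Finset.range (t + 4), 2 * ‖iteratedFDeriv ℝ (j + 2) N x₀‖ + 2 * C₂ - C * p / (32 * A) := by
    rw [Finset.sum_mul]
    calc _ ≤ ∑ j ∈ Finset.range (t + 4), (2 * ‖iteratedFDeriv ℝ (j + 2) N x₀‖ +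
          (if j = 0 then 2 * C₂ else 0) + (if j = 2 then -(C * p / (32 * A)) else 0)) :=
          Finset.sum_le_sum fun j _ => hterm j
      _ = _ := by
          rw [Finset.sum_add_distrib, Finset.sum_add_distrib, Finset.sum_ite_eq', Finset.sum_ite_eq',
            if_pos (by simp), if_pos (by simp)]
          ring
  have hq10 : 0 < q ^ 10 := by positivity
  have hfin : 0 ≤ (∑ j ∈ Finset.range (t + 4), ((j.factorial : ℝ))⁻¹ * (s ^ j + (-s) ^ j) *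
      Qj N x₀ ι ε H j + 2 * ∑ i, M * ‖s • ι (fun k => ε k * H i k)‖ ^ (t + 4) *
        ‖ι (Pi.single i (1:ℝ))‖ ^ 2) * q ^ 10 := mul_nonneg hblock hq10.le
  rw [add_mul] at hfin
  have hA0 : (0:ℝ) < 32 * A := by positivity
  have h6 : C * p / (32 * A) ≤ 2 * C₂ + ∑ j ∈ Finset.range (t + 4),
      2 * ‖iteratedFDeriv ℝ (j + 2) N x₀‖ + 4 * M * κ ^ (t + 4) := by linarith
  rw [div_le_iff₀ hA0] at h6
  linarith

end

end Pool.Agent.Helper23.PZ
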