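import Mathlib

/-! The gauge of a sublevel set of a smooth convex function is a smooth norm. -/

set_option autoImplicit false
set_option linter.unusedSectionVars false

namespace Pool.Agent.Helper23.PZ

open Set Filter Topology

variable {X : Type*} [NormedAddCommGroup X] [NormedSpace ℝ X]

section basic

variable (Φ : X → ℝ) (ρ δ : ℝ)

/-- the sublevel set -/
def lev (Φ : X → ℝ) (δ : ℝ) : Set X := {x | Φ x ≤ δ}

variable {Φ ρ δ}

theorem norm_lt_of_lev (hρ : 0 < ρ) (hδρ : δ < ρ ^ 4) (hlow : ∀ x, ‖x‖ ^ 4 ≤ Φ x) {x : X}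
    (hx : x ∈ lev Φ δ) : ‖x‖ < ρ := by
  have h1 : ‖x‖ ^ 4 < ρ ^ 4 := lt_of_le_of_lt ((hlow x).trans hx) hδρ
  exact lt_of_pow_lt_pow_left₀ 4 hρ.le h1

theorem lev_convex (hρ : 0 < ρ) (hδρ : δ < ρ ^ 4) (hlow : ∀ x, ‖x‖ ^ 4 ≤ Φ x)
    (hconv : ConvexOn ℝ (Metric.closedBall 0 ρ) Φ) : Convex ℝ (lev Φ δ) := by
  have h := hconv.convex_le δ
  have e : lev Φ δ = {x ∈ Metric.closedBall (0:X) ρ | Φ x ≤ δ} := by
    ext x
    constructor
    · intro hx
      refine ⟨?_, hx⟩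
      rw [mem_closedBall_zero_iff]
      exact (norm_lt_of_lev hρ hδρ hlow hx).le
    · intro hx
      exact hx.2
  rw [e]
  exact h

theorem lev_nhds (hδ : 0 < δ) (hcont : Continuous Φ) (h0 : Φ 0 = 0) : lev Φ δ ∈ 𝓝 (0 : X) := by
  have h : Tendsto Φ (𝓝 0) (𝓝 0) := by
    have := hcont.tendsto 0
    rwa [h0] at this
  filter_upwards [h.eventually_lt_const hδ] with x hx
  exact hx.le

theorem lev_symm (heven : ∀ x, Φ (-x) = Φ x) {x : X} (hx : x ∈ lev Φ δ) : -x ∈ lev Φ δ := by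
  have h : Φ x ≤ δ := hx
  show Φ (-x) ≤ δ
  rw [heven]; exact h

theorem gauge_lt_one_of_lt (hcont : Continuous Φ) {z : X} (hz : Φ z < δ) :
    gauge (lev Φ δ) z < 1 := by
  -- `t z ∈ lev` for `t` slightly larger than `1`
  have h1 : Tendsto (fun t : ℝ => Φ (t • z)) (𝓝 1) (𝓝 (Φ z)) := by
    have : Continuous (fun t : ℝ => Φ (t • z)) := hcont.comp (by fun_prop)
    have := this.tendsto 1
    simpa using this
  have h2 : ∀ᶠ t in 𝓝[>] (1:ℝ), Φ (t • z) < δ :=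
    nhdsWithin_le_nhds (h1.eventually_lt_const hz)
  obtain ⟨t, ht1, ht2⟩ := (h2.and self_mem_nhdsWithin).exists
  have ht2' : 1 < t := ht2
  have ht0 : 0 < t := by linarith
  have htm : t • z ∈ lev Φ δ := ht1.le
  have h3 : gauge (lev Φ δ) (t • z) ≤ 1 := gauge_le_one_of_mem htm
  rw [gauge_smul_of_nonneg ht0.le, smul_eq_mul] at h3
  have h4 : 0 ≤ gauge (lev Φ δ) z := gauge_nonneg z
  by_contra hcon
  push Not at hcon
  nlinarith

theorem gauge_eq_one_of_eq (hδ : 0 < δ) (hρ : 0 < ρ) (hδρ : δ < ρ ^ 4)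
    (hlow : ∀ x, ‖x‖ ^ 4 ≤ Φ x) (h0 : Φ 0 = 0)
    (hconv : ConvexOn ℝ (Metric.closedBall 0 ρ) Φ) (hcont : Continuous Φ) {z : X} (hz : Φ z = δ) :
    gauge (lev Φ δ) z = 1 := by
  have hzm : z ∈ lev Φ δ := hz.le
  apply le_antisymm (gauge_le_one_of_mem hzm)
  by_contra hcon
  push Not at hcon
  have habs : Absorbent ℝ (lev Φ δ) := absorbent_nhds_zero (lev_nhds hδ hcont h0)
  obtain ⟨t, ht0, ht1, w, hw, hwz⟩ := exists_lt_of_gauge_lt habs hcon
  simp only at hwz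
  have hwρ := norm_lt_of_lev hρ hδρ hlow hw
  have h1 := hconv.2 (show w ∈ Metric.closedBall (0:X) ρ by
    rw [mem_closedBall_zero_iff]; exact hwρ.le)
    (show (0:X) ∈ Metric.closedBall (0:X) ρ by
      rw [mem_closedBall_zero_iff, norm_zero]; exact hρ.le) ht0.le (by linarith : 0 ≤ 1 - t)
    (by ring)
  rw [smul_zero, add_zero, hwz, h0, hz] at h1
  have hw' : Φ w ≤ δ := hw
  simp only [smul_eq_mul, mul_zero, add_zero] at h1
  nlinarith

theorem eq_of_gauge_eq_one (hδ : 0 < δ) (hρ : 0 < ρ) (hδρ : δ < ρ ^ 4)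
    (hlow : ∀ x, ‖x‖ ^ 4 ≤ Φ x) (h0 : Φ 0 = 0)
    (hconv : ConvexOn ℝ (Metric.closedBall 0 ρ) Φ) (hcont : Continuous Φ) {z : X}
    (hz : gauge (lev Φ δ) z = 1) : Φ z = δ := by
  have hK := lev_convex hρ hδρ hlow hconv
  have hn := lev_nhds (Φ := Φ) hδ hcont h0
  have hclosed : IsClosed (lev Φ δ) := isClosed_le hcont continuous_const
  rcases lt_trichotomy (Φ z) δ with h | h | h
  · exact absurd hz (gauge_lt_one_of_lt hcont h).ne
  · exact h
  · exfalso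
    have h1 : z ∈ closure (lev Φ δ) := by
      exact (gauge_le_one_iff_mem_closure hK hn).1 hz.le
    rw [hclosed.closure_eq] at h1
    have h2 : Φ z ≤ δ := h1
    linarith

end basic

theorem gauge_smooth [CompleteSpace X] (Φ : X → ℝ) (k : ℕ) (hk : 1 ≤ k) (ρ δ : ℝ)
    (hρ : 0 < ρ) (hδ : 0 < δ) (hδρ : δ < ρ ^ 4) (hC : ContDiff ℝ (k : WithTop ℕ∞) Φ)
    (heven : ∀ x, Φ (-x) = Φ x) (h0 : Φ 0 = 0)
    (hconv : ConvexOn ℝ (Metric.closedBall 0 ρ) Φ) (hlow : ∀ x, ‖x‖ ^ 4 ≤ Φ x) :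
    ∃ N : X → ℝ,
        (∀ x y : X, N (x + y) ≤ N x + N y) ∧
        (∀ (t : ℝ) (x : X), N (t • x) = |t| * N x) ∧
        (∃ c C : ℝ, 0 < c ∧ ∀ x : X, c * ‖x‖ ≤ N x ∧ N x ≤ C * ‖x‖) ∧
        ContDiffOn ℝ (k : WithTop ℕ∞) N {x : X | x ≠ 0} := by
  have hcont : Continuous Φ := hC.continuous
  have hK := lev_convex hρ hδρ hlow hconv
  have hn := lev_nhds (Φ := Φ) hδ hcont h0
  have habs : Absorbent ℝ (lev Φ δ) := absorbent_nhds_zero hn
  have hneg : ∀ x ∈ lev Φ δ, -x ∈ lev Φ δ := fun x hx => lev_symm heven hx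
  have hsmul : ∀ (t : ℝ) (x : X), gauge (lev Φ δ) (t • x) = |t| * gauge (lev Φ δ) x := by
    intro t x
    rcases le_total 0 t with ht | ht
    · rw [gauge_smul_of_nonneg ht, smul_eq_mul, abs_of_nonneg ht]
    · have h1 : t • x = (-t) • (-x) := by rw [neg_smul, smul_neg, neg_neg]
      rw [h1, gauge_smul_of_nonneg (by linarith : 0 ≤ -t), smul_eq_mul, abs_of_nonpos ht,
        gauge_neg hneg]
  -- bounds
  have hlowN : ∀ x : X, ρ⁻¹ * ‖x‖ ≤ gauge (lev Φ δ) x := by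
    intro x
    have h1 : lev Φ δ ⊆ Metric.ball 0 ρ := fun y hy => by
      rw [mem_ball_zero_iff]; exact norm_lt_of_lev hρ hδρ hlow hy
    have h2 := gauge_mono habs h1 x
    rw [gauge_ball hρ.le] at h2
    rw [inv_mul_eq_div]
    exact h2
  obtain ⟨s, hs, hsK⟩ := Metric.mem_nhds_iff.1 hn
  have hupN : ∀ x : X, gauge (lev Φ δ) x ≤ s⁻¹ * ‖x‖ := by
    intro x
    have h2 := gauge_mono (absorbent_ball_zero hs) hsK x
    rw [gauge_ball hs.le] at h2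
    rw [inv_mul_eq_div]
    exact h2
  refine ⟨gauge (lev Φ δ), fun x y => gauge_add_le hK habs x y, hsmul,
    ⟨ρ⁻¹, s⁻¹, by positivity, fun x => ⟨hlowN x, hupN x⟩⟩, ?_⟩
  intro x₀ hx₀
  apply ContDiffAt.contDiffWithinAt
  have hx₀' : x₀ ≠ 0 := hx₀
  set N := gauge (lev Φ δ) with hNdef
  have hN0 : 0 < N x₀ := lt_of_lt_of_le (mul_pos (inv_pos.2 hρ) (norm_pos_iff.2 hx₀')) (hlowN x₀)
  set μ₀ : ℝ := (N x₀)⁻¹ with hμ₀
  have hμ₀pos : 0 < μ₀ := inv_pos.2 hN0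
  have hz1 : N (μ₀ • x₀) = 1 := by
    rw [hsmul, abs_of_pos hμ₀pos, hμ₀, inv_mul_cancel₀ hN0.ne']
  have hzΦ : Φ (μ₀ • x₀) = δ := eq_of_gauge_eq_one hδ hρ hδρ hlow h0 hconv hcont hz1
  have hk0 : (k : WithTop ℕ∞) ≠ 0 := by
    intro h
    have : k = 0 := by exact_mod_cast h
    omega
  -- the implicit equation
  set f : X × ℝ → ℝ := fun p => Φ (p.2 • p.1) with hf
  have hfC : ContDiff ℝ (k : WithTop ℕ∞) f := hC.comp (contDiff_snd.smul contDiff_fst)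
  have hΦd : DifferentiableAt ℝ Φ (μ₀ • x₀) := (hC.differentiable hk0).differentiableAt
  -- radial derivative
  have hrad : 0 < fderiv ℝ Φ (μ₀ • x₀) x₀ := by
    -- `g t = Φ (t • x₀)`, `g (μ₀ - h) ≤ ...`
    have hg : HasDerivAt (fun t : ℝ => Φ (t • x₀)) (fderiv ℝ Φ (μ₀ • x₀) x₀) μ₀ := by
      have h1 : HasDerivAt (fun t : ℝ => t • x₀) x₀ μ₀ := by
        simpa using (hasDerivAt_id μ₀).smul_const x₀
      exact (hΦd.hasFDerivAt.comp_hasDerivAt μ₀ h1)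
    -- for `t < μ₀`, slope is at least `δ / μ₀`
    have hslope : ∀ᶠ t in 𝓝[<] μ₀, δ / μ₀ ≤ slope (fun t : ℝ => Φ (t • x₀)) μ₀ t := by
      have hmem : Ioo 0 μ₀ ∈ 𝓝[<] μ₀ := Ioo_mem_nhdsLT hμ₀pos
      filter_upwards [hmem] with t ht
      have hzball : μ₀ • x₀ ∈ Metric.closedBall (0:X) ρ := by
        rw [mem_closedBall_zero_iff]
        exact (norm_lt_of_lev hρ hδρ hlow (show Φ (μ₀ • x₀) ≤ δ from hzΦ.le)).le
      have h1 := hconv.2 hzball
        (show (0:X) ∈ Metric.closedBall (0:X) ρ by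
          rw [mem_closedBall_zero_iff, norm_zero]; exact hρ.le)
        (show 0 ≤ t / μ₀ from div_nonneg ht.1.le hμ₀pos.le)
        (show 0 ≤ 1 - t / μ₀ by
          have : t / μ₀ ≤ 1 := (div_le_one hμ₀pos).2 ht.2.le
          linarith) (by ring)
      rw [smul_zero, add_zero, smul_smul, div_mul_cancel₀ _ hμ₀pos.ne', h0, hzΦ] at h1
      simp only [smul_eq_mul, mul_zero, add_zero] at h1
      rw [slope_def_field]
      have hlt : t - μ₀ < 0 := by linarith [ht.2]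
      rw [le_div_iff_of_neg hlt, hzΦ]
      have h2 : t / μ₀ * δ = δ / μ₀ * t := by ring
      have h3 : δ / μ₀ * (t - μ₀) = δ / μ₀ * t - δ := by
        field_simp
      rw [h3]
      linarith
    have htend := (hasDerivAt_iff_tendsto_slope.1 hg).mono_left
      (nhdsWithin_mono μ₀ (fun t ht => (ne_of_lt ht) : Iio μ₀ ⊆ {μ₀}ᶜ))
    have := ge_of_tendsto htend hslope
    exact lt_of_lt_of_le (div_pos hδ hμ₀pos) this
  have hfd : fderiv ℝ f (x₀, μ₀) ∘L ContinuousLinearMap.inr ℝ X ℝ =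
      ContinuousLinearMap.toSpanSingleton ℝ (fderiv ℝ Φ (μ₀ • x₀) x₀) := by
    ext
    simp only [ContinuousLinearMap.coe_comp, Function.comp_apply, ContinuousLinearMap.inr_apply,
      ContinuousLinearMap.toSpanSingleton_apply, one_smul]
    have h1 : HasFDerivAt (fun p : X × ℝ => p.2 • p.1) _ (x₀, μ₀) :=
      (hasFDerivAt_snd (𝕜 := ℝ) (E := X) (F := ℝ) (p := (x₀, μ₀))).smul
        (hasFDerivAt_fst (𝕜 := ℝ) (E := X) (F := ℝ) (p := (x₀, μ₀)))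
    have h2 := hΦd.hasFDerivAt.comp (x₀, μ₀) h1
    have h3 : fderiv ℝ f (x₀, μ₀) = _ := h2.fderiv
    rw [h3]
    simp
  have hinv : (fderiv ℝ f (x₀, μ₀) ∘L ContinuousLinearMap.inr ℝ X ℝ).IsInvertible := by
    rw [hfd]
    refine ⟨ContinuousLinearEquiv.unitsEquivAut ℝ (Units.mk0 _ hrad.ne'), ?_⟩
    ext
    simp
  have hfa : ContDiffAt ℝ (k : WithTop ℕ∞) f (x₀, μ₀) := hfC.contDiffAt
  set ψ := hfa.implicitFunction hk0 hinv with hψ
  have hψC : ContDiffAt ℝ (k : WithTop ℕ∞) ψ x₀ := hfa.contDiffAt_implicitFunction hk0 hinv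
  have hψ0 : ψ x₀ = μ₀ := hfa.implicitFunction_apply_self hk0 hinv
  have hψe : ∀ᶠ x in 𝓝 x₀, f (x, ψ x) = f (x₀, μ₀) :=
    hfa.eventually_apply_implicitFunction hk0 hinv
  have hψpos : ∀ᶠ x in 𝓝 x₀, 0 < ψ x := by
    have : Tendsto ψ (𝓝 x₀) (𝓝 μ₀) := by
      have := hψC.continuousAt.tendsto
      rwa [hψ0] at this
    exact this.eventually_const_lt hμ₀pos
  have hfinal : N =ᶠ[𝓝 x₀] fun x => (ψ x)⁻¹ := by
    filter_upwards [hψe, hψpos] with x hx hpos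
    have h1 : Φ (ψ x • x) = δ := by
      have : f (x, ψ x) = Φ (ψ x • x) := rfl
      rw [← this, hx]
      exact hzΦ
    have h2 := gauge_eq_one_of_eq hδ hρ hδρ hlow h0 hconv hcont h1
    rw [← hNdef, hsmul, abs_of_pos hpos] at h2
    exact eq_inv_of_mul_eq_one_right h2
  refine ContDiffAt.congr_of_eventuallyEq ?_ hfinal
  exact hψC.inv (by rw [hψ0]; exact hμ₀pos.ne')

end Pool.Agent.Helper23.PZ
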