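import Mathlib
import Pool.Agent.Helper23.PZ.Final
import Pool.Agent.Helper15.SR.Blocks

/-! No `C^∞` norm on an `ℓ₄`-sum of blocks. -/

set_option autoImplicit false
set_option linter.unusedSectionVars false

namespace Pool.Agent.Helper23.PZ

open Finset Filter Topology
open scoped ENNReal

attribute [instance] BlockData.fΩ BlockData.dΩ BlockData.fV BlockData.dV

variable {E : ℕ → Type} [∀ b, NormedAddCommGroup (E b)] [∀ b, NormedSpace ℝ (E b)]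
  [Fact ((1:ℝ≥0∞) ≤ 4)]

/-- the embedding of the functions on `Ω` in the sum -/
noncomputable def emb {b : ℕ} {p r Λ t : ℕ} (d : BlockData (E b) p r Λ t) :
    (d.Ω → ℝ) →ₗ[ℝ] lp E 4 where
  toFun x := lp.single 4 b (d.J x)
  map_add' x y := by rw [map_add, lp.single_add]
  map_smul' a x := by rw [map_smul, lp.single_smul]; rfl

theorem norm_emb {b : ℕ} {p r Λ t : ℕ} (d : BlockData (E b) p r Λ t) (x : d.Ω → ℝ) :
    ‖emb d x‖ = ‖d.J x‖ :=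
  lp.norm_single (by norm_num) _ _

theorem copies {D : lp E 4 → lp E 4 → ℝ} (hD : Bil D) (C₂ : ℝ) (hC₂ : 0 ≤ C₂)
    (hDb : ∀ x, D x x ≤ C₂ * ‖x‖ ^ 2) (B : Finset ℕ) {p r Λ t : ℕ} (hp : 1 ≤ p)
    (hτ : 1 + (r:ℝ) * Λ ≤ (p:ℝ) ^ 2) (hB : p ^ 12 ≤ B.card)
    (d : ∀ b : {b // b ∈ B}, BlockData (E b) p r Λ t) :
    ∃ b : {b // b ∈ B},
      (∑ i, D (emb (d b) (Pi.single i 1)) (emb (d b) (Pi.single i 1))) * (p:ℝ) ^ 5 ≤ C₂ := by
  classical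
  set f : (Σ b : {b // b ∈ B}, (d b).Ω) → lp E 4 := fun k => emb (d k.1) (Pi.single k.2 1) with hf
  obtain ⟨ρ, hρ, h1⟩ := exists_signs_bil hD f univ
  set x : lp E 4 := ∑ k, ρ k • f k with hx
  -- the vector `x`
  have hx1 : x = ∑ b : {b // b ∈ B}, lp.single 4 (b:ℕ) ((d b).J (fun i => ρ ⟨b, i⟩)) := by
    rw [hx, Fintype.sum_sigma]
    refine Finset.sum_congr rfl fun b _ => ?_
    have h2 : ∑ i, ρ ⟨b, i⟩ • f ⟨b, i⟩ = emb (d b) (∑ i, ρ ⟨b, i⟩ • (Pi.single i (1:ℝ) : (d b).Ω → ℝ)) := by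
      rw [map_sum]
      refine Finset.sum_congr rfl fun i _ => ?_
      rw [map_smul]
    rw [h2, sum_single_signs]
    rfl
  set F : ∀ b : ℕ, E b := fun b => if hb : b ∈ B then (d ⟨b, hb⟩).J (fun i => ρ ⟨⟨b, hb⟩, i⟩) else 0
    with hF
  have hx2 : x = ∑ b ∈ B, lp.single 4 b (F b) := by
    rw [hx1, ← Finset.sum_coe_sort B (fun b => lp.single 4 b (F b))]
    refine Finset.sum_congr rfl fun b _ => ?_
    have : F (b:ℕ) = (d b).J (fun i => ρ ⟨b, i⟩) := by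
      simp only [hF]
      rw [dif_pos b.2]
    rw [this]
  have hxn : ‖x‖ ^ 4 ≤ B.card * (p:ℝ) ^ 2 := by
    have h3 := lp.norm_sum_single (p := 4) (by norm_num) F B
    have e : ((4 : ℝ≥0∞)).toReal = ((4 : ℕ) : ℝ) := by norm_num
    rw [e] at h3
    simp only [Real.rpow_natCast] at h3
    rw [← hx2] at h3
    rw [h3]
    have h4 : ∀ b ∈ B, ‖F b‖ ^ 4 ≤ (p:ℝ) ^ 2 := by
      intro b hb
      have : F b = (d ⟨b, hb⟩).J (fun i => ρ ⟨⟨b, hb⟩, i⟩) := by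
        simp only [hF]
        rw [dif_pos hb]
      rw [this]
      refine ((d ⟨b, hb⟩).norm_le _ fun i => ?_).trans hτ
      exact (hρ.abs _).le
    calc ∑ b ∈ B, ‖F b‖ ^ 4 ≤ ∑ b ∈ B, (p:ℝ) ^ 2 := Finset.sum_le_sum h4
      _ = _ := by rw [Finset.sum_const, nsmul_eq_mul]
  -- pigeonhole
  by_contra hcon
  push Not at hcon
  have hp0 : (0:ℝ) < p := by exact_mod_cast hp
  have hR : (p:ℝ) ^ 12 ≤ B.card := by exact_mod_cast hB
  have hR0 : (0:ℝ) < B.card := lt_of_lt_of_le (by positivity) hR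
  have h5 : (B.card : ℝ) * C₂ < C₂ * ‖x‖ ^ 2 * (p:ℝ) ^ 5 := by
    have h6 : (B.card : ℝ) * C₂ = ∑ _b : {b // b ∈ B}, C₂ := by
      rw [Finset.sum_const, Finset.card_univ, Fintype.card_coe, nsmul_eq_mul]
    have hne : (univ : Finset {b // b ∈ B}).Nonempty := by
      have : 0 < B.card := by exact_mod_cast hR0
      obtain ⟨b, hb⟩ := Finset.card_pos.1 this
      exact ⟨⟨b, hb⟩, Finset.mem_univ _⟩
    have h7 : ∑ _b : {b // b ∈ B}, C₂ < ∑ b : {b // b ∈ B},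
        (∑ i, D (emb (d b) (Pi.single i 1)) (emb (d b) (Pi.single i 1))) * (p:ℝ) ^ 5 :=
      Finset.sum_lt_sum_of_nonempty hne fun b _ => hcon b
    have h8 : ∑ b : {b // b ∈ B},
        (∑ i, D (emb (d b) (Pi.single i 1)) (emb (d b) (Pi.single i 1))) * (p:ℝ) ^ 5 =
        (∑ k, D (f k) (f k)) * (p:ℝ) ^ 5 := by
      rw [← Finset.sum_mul, Fintype.sum_sigma]
    rw [h6]
    refine lt_of_lt_of_le h7 ?_
    rw [h8]
    exact mul_le_mul_of_nonneg_right (h1.trans (hDb x)) (by positivity)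
  have hC₂pos : 0 < C₂ := by
    rcases hC₂.eq_or_lt with h | h
    · rw [← h] at h5; simp at h5
    · exact h
  have h9 : (B.card : ℝ) < ‖x‖ ^ 2 * (p:ℝ) ^ 5 := by
    have : C₂ * (B.card : ℝ) < C₂ * (‖x‖ ^ 2 * (p:ℝ) ^ 5) := by linarith
    exact lt_of_mul_lt_mul_left this hC₂pos.le
  have h10 : (B.card : ℝ) ^ 2 < (‖x‖ ^ 2 * (p:ℝ) ^ 5) ^ 2 := pow_lt_pow_left₀ h9 hR0.le two_ne_zero
  have h11 : (‖x‖ ^ 2 * (p:ℝ) ^ 5) ^ 2 = ‖x‖ ^ 4 * (p:ℝ) ^ 10 := by ring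
  rw [h11] at h10
  have h12 : ‖x‖ ^ 4 * (p:ℝ) ^ 10 ≤ B.card * (p:ℝ) ^ 2 * (p:ℝ) ^ 10 :=
    mul_le_mul_of_nonneg_right hxn (by positivity)
  have h13 : (B.card : ℝ) * (p:ℝ) ^ 2 * (p:ℝ) ^ 10 ≤ (B.card : ℝ) * B.card := by
    rw [mul_assoc, ← pow_add]
    exact mul_le_mul_of_nonneg_left hR hR0.le
  have h14 : (B.card : ℝ) * B.card = (B.card : ℝ) ^ 2 := by ring
  linarith

theorem no_smooth
    (hblocks : ∀ A₀ : ℕ, ∃ A ≥ A₀, ∃ t : ℕ, ∀ p₀ b₀ : ℕ, ∃ p ≥ p₀, ∃ Λ : ℕ,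
      A * Λ ≤ p ∧ p ≤ 8 * A * Λ ∧ ∃ B : Finset ℕ, p ^ 12 ≤ B.card ∧
        ∀ b ∈ B, b₀ ≤ b ∧ Nonempty (BlockData (E b) p (A * Λ) Λ t)) :
    ¬ ∃ N : lp E 4 → ℝ,
        (∀ x y : lp E 4, N (x + y) ≤ N x + N y) ∧
        (∀ (t : ℝ) (x : lp E 4), N (t • x) = |t| * N x) ∧
        (∃ c C : ℝ, 0 < c ∧ ∀ x : lp E 4, c * ‖x‖ ≤ N x ∧ N x ≤ C * ‖x‖) ∧
        ContDiffOn ℝ ((⊤ : ℕ∞) : WithTop ℕ∞) N {x : lp E 4 | x ≠ 0} := by
  rintro ⟨N, hadd, hsmul, ⟨a, b', ha, hab⟩, hN⟩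
  -- nonzero blocks
  have hinf : ∀ m : ℕ, ∃ n ≥ m, ∃ v : E n, v ≠ 0 := by
    intro m
    obtain ⟨A, hA, t, h⟩ := hblocks 1
    obtain ⟨p, hp, Λ, h1, h2, B, hB, hb⟩ := h 1 m
    have hcard : 0 < B.card := lt_of_lt_of_le (pow_pos (by omega) 12) hB
    obtain ⟨b, hbB⟩ := Finset.card_pos.1 hcard
    obtain ⟨hmb, ⟨d⟩⟩ := hb b hbB
    have hAΛ : 0 < A * Λ := by
      rcases Nat.eq_zero_or_pos (A * Λ) with h0 | h0
      · rw [mul_assoc, h0] at h2; omega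
      · exact h0
    have hV : 0 < Fintype.card d.V := by rw [d.card_V]; omega
    obtain ⟨v⟩ := Fintype.card_pos_iff.1 hV
    refine ⟨b, hmb, d.J (fun i => if d.cls ⟨0, hAΛ⟩ i = v then (1:ℝ) else 0), ?_⟩
    intro h0
    have h3 := d.norm_clique ⟨0, hAΛ⟩ v (fun _ => 1) (fun _ => Or.inl rfl)
    rw [h0, norm_zero] at h3
    have h4 : (0:ℝ) < ((A * Λ : ℕ) : ℝ) / (4 * p) := by
      apply div_pos
      · exact_mod_cast hAΛ
      · have : (0:ℝ) < p := by exact_mod_cast (by omega : 0 < p)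
        positivity
    norm_num at h3
    push_cast at h4
    linarith
  have hle : ∀ m : ℕ, ((m : ℕ) : WithTop ℕ∞) ≤ ((⊤ : ℕ∞) : WithTop ℕ∞) := fun m => by
    exact_mod_cast le_top
  have h4le := hle 4
  obtain ⟨q, hq, -, x₀, hx₀, ⟨c, hc, n₀, hlow⟩, -⟩ := Pool.Agent.Helper15.SR.blocks (by norm_num) N
    hadd hsmul ha (fun x => (hab x).1) (fun x => (hab x).2) 4 (by norm_num)
    (hN.of_le h4le) hinf
  have hq4 : q = 4 := by
    have e : ((4 : ℝ≥0∞)).toReal = ((4 : ℕ) : ℝ) := by norm_num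
    rw [e] at hq
    exact_mod_cast hq.symm
  subst hq4
  have hNat : ∀ m : ℕ, ContDiffAt ℝ ((m : ℕ) : WithTop ℕ∞) N x₀ := by
    intro m
    have h1 : ContDiffAt ℝ ((⊤ : ℕ∞) : WithTop ℕ∞) N x₀ := hN.contDiffAt (isOpen_ne.mem_nhds hx₀)
    exact h1.of_le (by exact_mod_cast le_top)
  set C : ℝ := max c ‖iteratedFDeriv ℝ 4 N x₀‖ with hC
  have hcC : c ≤ C := le_max_left _ _
  have hC0 : 0 < C := lt_of_lt_of_le hc hcC
  obtain ⟨A, hA, t, hA2⟩ := hblocks (⌈32 * C ^ 2 / c ^ 2⌉₊ + 2)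
  have hAr : 32 * C ^ 2 ≤ c ^ 2 * A := by
    have h1 : 32 * C ^ 2 / c ^ 2 ≤ A := by
      calc 32 * C ^ 2 / c ^ 2 ≤ (⌈32 * C ^ 2 / c ^ 2⌉₊ : ℝ) := Nat.le_ceil _
        _ ≤ A := by exact_mod_cast (by omega : ⌈32 * C ^ 2 / c ^ 2⌉₊ ≤ A)
    rw [div_le_iff₀ (by positivity)] at h1
    linarith
  have hA22 : 2 ≤ A := by omega
  obtain ⟨r₀, hr₀, M, hM, hstar⟩ := star hadd hsmul x₀ (t + 4) (hNat (t + 4 + 2))
  set C₂ : ℝ := ‖iteratedFDeriv ℝ 2 N x₀‖ with hC₂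
  have hC₂0 : 0 ≤ C₂ := norm_nonneg _
  set G : ℝ := 32 * A * (2 * C₂ + ∑ j ∈ Finset.range (t + 4), 2 * ‖iteratedFDeriv ℝ (j + 2) N x₀‖ +
      4 * M * ((t:ℝ) + 1) ^ (t + 4)) with hG
  -- `p` large
  obtain ⟨p₁, hp₁⟩ := exists_nat_gt (max (G / C) (max (8 * C / c) (((t:ℝ) + 1) / r₀)))
  obtain ⟨p, hp, Λ, h1, h2, B, hB, hb⟩ := hA2 (max p₁ 4) n₀
  have hpp₁ : p₁ ≤ p := (le_max_left _ _).trans hp
  have hp4 : 4 ≤ p := (le_max_right _ _).trans hp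
  have hpR : max (G / C) (max (8 * C / c) (((t:ℝ) + 1) / r₀)) < p :=
    lt_of_lt_of_le hp₁ (by exact_mod_cast hpp₁)
  have g1 : G / C < p := lt_of_le_of_lt (le_max_left _ _) hpR
  have g2 : 8 * C / c < p := lt_of_le_of_lt ((le_max_left _ _).trans (le_max_right _ _)) hpR
  have g3 : ((t:ℝ) + 1) / r₀ < p := lt_of_le_of_lt ((le_max_right _ _).trans (le_max_right _ _)) hpR
  rw [div_lt_iff₀ hC0, mul_comm (p:ℝ) C] at g1
  rw [div_lt_iff₀ hc] at g2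
  rw [div_lt_iff₀ hr₀] at g3
  have hΛ : 1 ≤ Λ := by
    rcases Nat.eq_zero_or_pos Λ with h0 | h0
    · rw [h0] at h2; omega
    · exact h0
  have hh1 : (A:ℝ) * Λ ≤ p := by exact_mod_cast h1
  have hh2 : (p:ℝ) ≤ 8 * A * Λ := by exact_mod_cast h2
  have hp0 : (0:ℝ) < p := by exact_mod_cast (by omega : 0 < p)
  have hAR : (2:ℝ) ≤ A := by exact_mod_cast hA22
  have hΛR : (1:ℝ) ≤ Λ := by exact_mod_cast hΛ
  have hp4R : (4:ℝ) ≤ p := by exact_mod_cast hp4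
  have hτ : 1 + ((A * Λ : ℕ) : ℝ) * Λ ≤ (p:ℝ) ^ 2 := by
    push_cast
    have h3 : 2 * (Λ:ℝ) ≤ p := by nlinarith
    have h4 : (A:ℝ) * Λ * Λ ≤ p * Λ := by nlinarith
    nlinarith
  have hdat : ∀ b : {b // b ∈ B}, Nonempty (BlockData (E b) p (A * Λ) Λ t) := fun b => (hb b b.2).2
  set d : ∀ b : {b // b ∈ B}, BlockData (E b) p (A * Λ) Λ t := fun b => (hdat b).some with hddef
  obtain ⟨b, hbO⟩ := copies (Bil.of_multilinear (iteratedFDeriv ℝ 2 N x₀)) C₂ hC₂0 (fun x => by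
    have h3 := (iteratedFDeriv ℝ 2 N x₀).le_opNorm ![x, x]
    rw [Fin.prod_univ_two, Real.norm_eq_abs] at h3
    refine (le_abs_self _).trans (h3.trans (le_of_eq ?_))
    simp only [Matrix.cons_val_zero, Matrix.cons_val_one]
    ring) B (by omega) hτ hB d
  set dd := d b with hdd
  refine final_block (r := A * Λ) N x₀ (hNat 4) r₀ M hM hstar (emb dd) dd.cls c C hc hcC (le_max_right _ _) ?_
    rfl h1 h2 hA22 hΛ hp4 hAr ?_ dd.card_V dd.card_Ω dd.card_clique dd.agree ?_ ?_ ?_ ?_ C₂ ?_ ?_ g1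
  · intro x
    have h3 := hlow b (hb b b.2).1 (dd.J x)
    rw [norm_emb]
    exact h3
  · push_cast
    nlinarith
  · intro x hx
    rw [norm_emb]; exact dd.norm_le x hx
  · intro c' v ρ hρ
    rw [norm_emb]; exact dd.norm_clique c' v ρ hρ
  · intro i
    rw [norm_emb]; exact dd.norm_point i
  · intro c₁ c₂ hne v v' ρ hρ
    rw [norm_emb]; exact dd.norm_two c₁ c₂ hne v v' ρ hρ
  · refine le_trans (le_of_eq ?_) hbO
    congr 1
    refine Finset.sum_congr rfl fun i _ => ?_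
    congr 1
    funext l
    fin_cases l <;> rfl
  · linarith

end Pool.Agent.Helper23.PZ
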