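import Pool.Agent.Helper47.PK.FB
import Pool.Agent.Helper47.PK.Polar

/-! Project PK: `PP` and `QQ` are quartics (backup for PK-09b). -/

set_option autoImplicit false

namespace Pool.Agent.Helper23.PZ

open Finset Pool.Agent.Helper47.PK

section

variable {F : Type} [AddCommGroup F] [Module ℝ F]

theorem IsQ4_add {P Q : F → ℝ} (hP : IsQ4 P) (hQ : IsQ4 Q) : IsQ4 (fun x => P x + Q x) := by
  obtain ⟨L, hL⟩ := hP
  obtain ⟨M, hM⟩ := hQ
  exact ⟨L + M, fun x => by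
    show P x + Q x = _
    rw [hL, hM]; rfl⟩

theorem IsQ4_smul {P : F → ℝ} (a : ℝ) (hP : IsQ4 P) : IsQ4 (fun x => a * P x) := by
  obtain ⟨L, hL⟩ := hP
  exact ⟨a • L, fun x => by
    show a * P x = _
    rw [hL]; rfl⟩

theorem IsQ4_zero : IsQ4 (fun _ : F => (0:ℝ)) := ⟨0, fun _ => rfl⟩

theorem IsQ4_sum {ι : Type*} (s : Finset ι) {P : ι → F → ℝ} (hP : ∀ i ∈ s, IsQ4 (P i)) :
    IsQ4 (fun x => ∑ i ∈ s, P i x) := by
  classical
  induction s using Finset.induction_on with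
  | empty => simpa using IsQ4_zero
  | insert a s ha ih =>
    simp_rw [Finset.sum_insert ha]
    exact IsQ4_add (hP a (Finset.mem_insert_self _ _))
      (ih fun i hi => hP i (Finset.mem_insert_of_mem hi))

theorem IsQ4_prod (f g : F →ₗ[ℝ] ℝ) : IsQ4 (fun x => f x ^ 2 * g x ^ 2) := by
  refine ⟨(MultilinearMap.mkPiAlgebra ℝ (Fin 4) ℝ).compLinearMap ![f, f, g, g], fun x => ?_⟩
  rw [MultilinearMap.compLinearMap_apply, MultilinearMap.mkPiAlgebra_apply, Fin.prod_univ_four]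
  show f x ^ 2 * g x ^ 2 = f x * f x * g x * g x
  ring

end

variable {Ω V : Type} [Fintype Ω] [Fintype V] [DecidableEq V] {r : ℕ} (π : Fin r → Ω → V)
  (Λ : ℕ)

theorem IsQ4_coord (i j : Ω) :
    IsQ4 (fun x : FB π Λ => (x : Ω → ℝ) i ^ 2 * (x : Ω → ℝ) j ^ 2) :=
  IsQ4_prod (F := FB π Λ) (evl π Λ i).toLinearMap (evl π Λ j).toLinearMap

theorem Bo_expand [DecidableEq Ω] (y : Ω → ℝ) (i : Ω) :
    Bo π Λ y i = ∑ j, y j * Bo π Λ (fun k => if k = j then (1:ℝ) else 0) i := by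
  have h1 : y = fun ω => ∑ j, y j * (if ω = j then (1:ℝ) else 0) := by
    funext ω
    simp
  conv_lhs => rw [h1]
  rw [Bo_sum]
  refine Finset.sum_congr rfl fun j _ => ?_
  rw [Bo_const_mul]

theorem isQ4_PP' : IsQ4 (fun x : FB π Λ => PP π Λ x) := by
  classical
  have h : (fun x : FB π Λ => PP π Λ x) = fun x : FB π Λ =>
      (∑ i, (1 / (Fintype.card Ω : ℝ)) * ((x : Ω → ℝ) i ^ 2 * (x : Ω → ℝ) i ^ 2)) +
      ∑ i, ∑ j, (Bo π Λ (fun k => if k = j then (1:ℝ) else 0) i / (Fintype.card Ω : ℝ)) *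
        ((x : Ω → ℝ) i ^ 2 * (x : Ω → ℝ) j ^ 2) := by
    funext x
    unfold PP av
    congr 1
    · rw [Finset.sum_div]
      refine Finset.sum_congr rfl fun i _ => by ring
    · rw [Finset.sum_div]
      refine Finset.sum_congr rfl fun i _ => ?_
      rw [Bo_expand, Finset.mul_sum, Finset.sum_div]
      refine Finset.sum_congr rfl fun j _ => by ring
  rw [h]
  refine IsQ4_add (IsQ4_sum _ fun i _ => IsQ4_smul _ (IsQ4_coord π Λ i i))
    (IsQ4_sum _ fun i _ => IsQ4_sum _ fun j _ => IsQ4_smul _ (IsQ4_coord π Λ i j))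

theorem isQ4_QQ' : IsQ4 (fun x : FB π Λ => QQ π Λ x) := by
  have h : (fun x : FB π Λ => QQ π Λ x) = fun x : FB π Λ => PP π Λ x +
      ∑ i, ∑ j, ((r : ℝ) ^ 2 / (Fintype.card Ω : ℝ) ^ 2) *
        ((x : Ω → ℝ) i ^ 2 * (x : Ω → ℝ) j ^ 2) := by
    funext x
    unfold QQ av
    congr 1
    rw [div_pow, pow_two (∑ i, (x : Ω → ℝ) i ^ 2), Finset.sum_mul_sum, mul_div_assoc', Finset.mul_sum,
      Finset.sum_div]
    refine Finset.sum_congr rfl fun i _ => ?_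
    rw [Finset.mul_sum, Finset.sum_div]
    refine Finset.sum_congr rfl fun j _ => by ring
  rw [h]
  exact IsQ4_add (isQ4_PP' π Λ)
    (IsQ4_sum _ fun i _ => IsQ4_sum _ fun j _ => IsQ4_smul _ (IsQ4_coord π Λ i j))

end Pool.Agent.Helper23.PZ
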