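import Pool.Agent.Helper47.PK.FB

/-! Project PK: `QQ` is convex (backup for PK-09c,d). -/

set_option autoImplicit false

namespace Pool.Agent.Helper23.PZ

open Finset Pool.Agent.Helper47.PK

variable {Ω V : Type} [Fintype Ω] [Fintype V] [DecidableEq V] {r : ℕ} (π : Fin r → Ω → V)
  (Λ : ℕ)

theorem av_convex (g : Ω → (Ω → ℝ) → ℝ) (hg : ∀ ω, ConvexOn ℝ Set.univ (g ω)) :
    ConvexOn ℝ Set.univ (fun x : Ω → ℝ => av (fun ω => g ω x)) := by
  refine ⟨convex_univ, fun x _ y _ a b ha hb hab => ?_⟩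
  simp only [smul_eq_mul]
  rw [← av_const_mul, ← av_const_mul, ← av_add]
  refine av_mono fun ω => ?_
  have := (hg ω).2 (Set.mem_univ x) (Set.mem_univ y) ha hb hab
  simpa [smul_eq_mul] using this

theorem coord_pow_convex (ω : Ω) {n : ℕ} (hn : Even n) :
    ConvexOn ℝ Set.univ (fun x : Ω → ℝ => x ω ^ n) := by
  refine ⟨convex_univ, fun x _ y _ a b ha hb hab => ?_⟩
  have := (Even.convexOn_pow (n := n) (𝕜 := ℝ) hn).2 (Set.mem_univ (x ω))
      (Set.mem_univ (y ω)) ha hb hab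
  simpa [smul_eq_mul] using this

theorem av_sq_convex : ConvexOn ℝ Set.univ (fun x : Ω → ℝ => av (fun ω => x ω ^ 2)) :=
  av_convex (fun ω x => x ω ^ 2) fun ω => coord_pow_convex ω (by decide)

theorem cm_sq_convex (c : Fin r) (v : V) :
    ConvexOn ℝ Set.univ (fun x : Ω → ℝ => cm π c (fun ω => x ω ^ 2) v) := by
  unfold cm
  have h := av_convex (fun ω x => if π c ω = v then x ω ^ 2 else 0) fun ω => by
    by_cases hω : π c ω = v
    · simp only [hω, if_true]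
      exact coord_pow_convex ω (by decide)
    · simp only [hω, if_false]
      exact convexOn_const 0 convex_univ
  exact h.smul (Nat.cast_nonneg _)

theorem QQ_eq (x : Ω → ℝ) : QQ π Λ x = av (fun ω => x ω ^ 4) +
    ((r : ℝ) * Λ * (av (fun ω => x ω ^ 2)) ^ 2 +
      (r : ℝ) * ∑ c, ∑ v, (1 / (Fintype.card V : ℝ)) * (cm π c (fun ω => x ω ^ 2) v) ^ 2) := by
  unfold QQ PP
  rw [av_mul_Bo π Λ (fun ω => x ω ^ 2) (fun ω => x ω ^ 2)]
  rw [Finset.sum_sub_distrib, Finset.sum_const, Finset.card_univ, Fintype.card_fin, nsmul_eq_mul]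
  have h1 : ∑ c : Fin r, (∑ v, cm π c (fun ω => x ω ^ 2) v * cm π c (fun ω => x ω ^ 2) v) /
      (Fintype.card V : ℝ) =
      ∑ c : Fin r, ∑ v, (1 / (Fintype.card V : ℝ)) * (cm π c (fun ω => x ω ^ 2) v) ^ 2 := by
    refine Finset.sum_congr rfl fun c _ => ?_
    rw [Finset.sum_div]
    refine Finset.sum_congr rfl fun v _ => by ring
  rw [h1]
  ring

theorem QQ_convex' : ConvexOn ℝ Set.univ (QQ π Λ) := by
  have h0 : QQ π Λ = fun x : Ω → ℝ => av (fun ω => x ω ^ 4) +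
    ((r : ℝ) * Λ * (av (fun ω => x ω ^ 2)) ^ 2 +
      (r : ℝ) * ∑ c, ∑ v, (1 / (Fintype.card V : ℝ)) * (cm π c (fun ω => x ω ^ 2) v) ^ 2) := by
    funext x
    exact QQ_eq π Λ x
  rw [h0]
  have h1 : ConvexOn ℝ Set.univ (fun x : Ω → ℝ => av (fun ω => x ω ^ 4)) :=
    av_convex (fun ω x => x ω ^ 4) fun ω => coord_pow_convex ω (by decide)
  have h2 : ConvexOn ℝ Set.univ (fun x : Ω → ℝ => (av (fun ω => x ω ^ 2)) ^ 2) :=
    av_sq_convex.pow (fun x _ => av_nonneg fun ω => sq_nonneg _) 2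
  have h3 : ∀ (c : Fin r) (v : V), ConvexOn ℝ Set.univ
      (fun x : Ω → ℝ => (cm π c (fun ω => x ω ^ 2) v) ^ 2) := fun c v =>
    (cm_sq_convex π c v).pow (fun x _ => cm_nonneg π c (fun ω => sq_nonneg _) v) 2
  have h4 : ConvexOn ℝ Set.univ (fun x : Ω → ℝ =>
      ∑ c, ∑ v, (1 / (Fintype.card V : ℝ)) * (cm π c (fun ω => x ω ^ 2) v) ^ 2) := by
    refine ⟨convex_univ, fun x _ y _ a b ha hb hab => ?_⟩
    simp only [smul_eq_mul]
    rw [Finset.mul_sum, Finset.mul_sum, ← Finset.sum_add_distrib]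
    refine Finset.sum_le_sum fun c _ => ?_
    rw [Finset.mul_sum, Finset.mul_sum, ← Finset.sum_add_distrib]
    refine Finset.sum_le_sum fun v _ => ?_
    have h5 := (h3 c v).2 (Set.mem_univ x) (Set.mem_univ y) ha hb hab
    simp only [smul_eq_mul] at h5
    have h6 : (0:ℝ) ≤ 1 / (Fintype.card V : ℝ) := by positivity
    calc _ ≤ 1 / (Fintype.card V : ℝ) * (a * (cm π c (fun ω => x ω ^ 2) v) ^ 2 +
          b * (cm π c (fun ω => y ω ^ 2) v) ^ 2) := mul_le_mul_of_nonneg_left h5 h6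
      _ = _ := by ring
  exact h1.add ((h2.smul (by positivity : (0:ℝ) ≤ (r : ℝ) * Λ)).add
    (h4.smul (Nat.cast_nonneg r)))

theorem QQ_le' {A : ℕ} (hA : r = A * Λ) (x : Ω → ℝ) : QQ π Λ x ≤ (1 + (A : ℝ)) * PP π Λ x := by
  have h1 : (r : ℝ) * Λ * (av (fun ω => x ω ^ 2)) ^ 2 ≤ PP π Λ x := by
    unfold PP
    rw [av_mul_Bo π Λ (fun ω => x ω ^ 2) (fun ω => x ω ^ 2)]
    have h2 : 0 ≤ av (fun ω => x ω ^ 4) := av_four_nonneg x
    have h3 : 0 ≤ (r : ℝ) * ∑ c, ((∑ v, cm π c (fun ω => x ω ^ 2) v * cm π c (fun ω => x ω ^ 2) v) /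
        Fintype.card V - av (fun ω => x ω ^ 2) * av (fun ω => x ω ^ 2)) :=
      mul_nonneg (Nat.cast_nonneg _) (Finset.sum_nonneg fun c _ => var_cm_nonneg π c _)
    nlinarith
  have h4 : (r : ℝ) ^ 2 = A * (r * Λ) := by
    have : (r : ℝ) = A * Λ := by rw [hA]; push_cast; ring
    rw [pow_two]
    nth_rewrite 1 [this]
    ring
  unfold QQ
  rw [h4]
  have h5 : (A : ℝ) * (r * Λ) * (av (fun ω => x ω ^ 2)) ^ 2 =
      A * ((r : ℝ) * Λ * (av (fun ω => x ω ^ 2)) ^ 2) := by ring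
  rw [h5]
  have h6 := mul_le_mul_of_nonneg_left h1 (Nat.cast_nonneg A : (0:ℝ) ≤ A)
  linarith

end Pool.Agent.Helper23.PZ
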