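import Mathlib
import Pool.Agent.Helper23.PZ.Gauge

/-! Smooth norms on `ℓ₄`-sums from convex functions on the blocks. -/

set_option autoImplicit false
set_option linter.unusedSectionVars false

namespace Pool.Agent.Helper23.PZ

open Set Filter Topology
open scoped ENNReal

theorem multilinear_bound {q : ℕ} {X : Type*} [NormedAddCommGroup X] [NormedSpace ℝ X]
    (T : MultilinearMap ℝ (fun _ : Fin q => X) ℝ) (C : ℝ)
    (h : ∀ m : Fin q → X, (∀ i, ‖m i‖ ≤ 1) → ‖T m‖ ≤ C) (m : Fin q → X) :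
    ‖T m‖ ≤ C * ∏ i, ‖m i‖ := by
  by_cases hm : ∃ i, m i = 0
  · obtain ⟨i, hi⟩ := hm
    rw [T.map_coord_zero i hi, norm_zero, Finset.prod_eq_zero (Finset.mem_univ i) (by simp [hi])]
    simp
  · push Not at hm
    have h1 : m = fun i => ‖m i‖ • ((‖m i‖)⁻¹ • m i) := by
      funext i
      rw [smul_smul, mul_inv_cancel₀ (norm_ne_zero_iff.2 (hm i)), one_smul]
    have h2 : T m = (∏ i, ‖m i‖) • T (fun i => (‖m i‖)⁻¹ • m i) := by
      conv_lhs => rw [h1]
      exact T.map_smul_univ (fun i => ‖m i‖) (fun i => (‖m i‖)⁻¹ • m i)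
    have h3 := h (fun i => (‖m i‖)⁻¹ • m i) (fun i => by
      rw [norm_smul, norm_inv, norm_norm, inv_mul_cancel₀ (norm_ne_zero_iff.2 (hm i))])
    rw [h2, norm_smul, Real.norm_of_nonneg (Finset.prod_nonneg fun i _ => norm_nonneg _), mul_comm]
    exact mul_le_mul_of_nonneg_right h3 (Finset.prod_nonneg fun i _ => norm_nonneg _)

variable {E : ℕ → Type*} [∀ b, NormedAddCommGroup (E b)] [∀ b, NormedSpace ℝ (E b)]
  [Fact ((1:ℝ≥0∞) ≤ 4)]

theorem hasSum4 (x : lp E 4) : HasSum (fun b => ‖x b‖ ^ 4) (‖x‖ ^ 4) := by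
  have h := lp.hasSum_norm (p := 4) (by norm_num) x
  have e : ((4 : ℝ≥0∞)).toReal = ((4 : ℕ) : ℝ) := by norm_num
  rw [e] at h
  simpa only [Real.rpow_natCast] using h

theorem lp_poly {q : ℕ} (T : ∀ b, ContinuousMultilinearMap ℝ (fun _ : Fin q => E b) ℝ) (C : ℝ)
    (hT : ∀ m : Fin q → lp E 4, (∀ i, ‖m i‖ ≤ 1) → ∃ a : ℕ → ℝ, Summable a ∧
      (∀ b, ‖T b (fun i => m i b)‖ ≤ a b) ∧ ∑' b, a b ≤ C) :
    ∃ L : ContinuousMultilinearMap ℝ (fun _ : Fin q => lp E 4) ℝ,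
      ∀ m : Fin q → lp E 4, HasSum (fun b => T b (fun i => m i b)) (L m) := by
  classical
  have hsum : ∀ m : Fin q → lp E 4, Summable (fun b => T b (fun i => m i b)) := by
    intro m
    set s : ℝ := 1 + ∑ i, ‖m i‖ with hs
    have hs1 : 0 < s := by
      have : 0 ≤ ∑ i, ‖m i‖ := Finset.sum_nonneg fun i _ => norm_nonneg _
      linarith
    have hle : ∀ i, ‖m i‖ ≤ s := by
      intro i
      have := Finset.single_le_sum (f := fun i => ‖m i‖) (fun i _ => norm_nonneg _)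
        (Finset.mem_univ i)
      linarith
    obtain ⟨a, ha, hab, -⟩ := hT (fun i => s⁻¹ • m i) (fun i => by
      rw [norm_smul, Real.norm_of_nonneg (inv_nonneg.2 hs1.le), inv_mul_le_iff₀ hs1, mul_one]
      exact hle i)
    have h1 : Summable (fun b => T b (fun i => (s⁻¹ • m i : lp E 4) b)) :=
      Summable.of_norm_bounded ha hab
    have h2 : ∀ b, T b (fun i => m i b) = s ^ q * T b (fun i => (s⁻¹ • m i : lp E 4) b) := by
      intro b
      have e : (fun i => m i b) = fun i => s • ((s⁻¹ • m i : lp E 4) b) := by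
        funext i
        rw [lp.coeFn_smul, Pi.smul_apply, smul_smul, mul_inv_cancel₀ hs1.ne', one_smul]
      conv_lhs => rw [e]
      have := (T b).map_smul_univ (fun _ => s) (fun i => (s⁻¹ • m i : lp E 4) b)
      rw [this, Finset.prod_const, Finset.card_univ, Fintype.card_fin, smul_eq_mul]
    have h3 : (fun b => T b (fun i => m i b)) =
        fun b => s ^ q * T b (fun i => (s⁻¹ • m i : lp E 4) b) := funext h2
    rw [h3]
    exact h1.mul_left _
  let T' : MultilinearMap ℝ (fun _ : Fin q => lp E 4) ℝ :=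
    { toFun := fun m => ∑' b, T b (fun i => m i b)
      map_update_add' := by
        intro _ m i x y
        have hup : ∀ (z : lp E 4) (b : ℕ), (fun j => (Function.update m i z) j b) =
            Function.update (fun j => m j b) i (z b) := by
          intro z b
          funext j
          by_cases hj : j = i
          · subst hj; simp
          · simp [Function.update_of_ne hj]
        rw [← (hsum _).tsum_add (hsum _)]
        congr 1
        funext b
        rw [hup, hup, hup, lp.coeFn_add, Pi.add_apply]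
        exact (T b).toMultilinearMap.map_update_add' _ _ _ _
      map_update_smul' := by
        intro _ m i c x
        have hup : ∀ (z : lp E 4) (b : ℕ), (fun j => (Function.update m i z) j b) =
            Function.update (fun j => m j b) i (z b) := by
          intro z b
          funext j
          by_cases hj : j = i
          · subst hj; simp
          · simp [Function.update_of_ne hj]
        rw [smul_eq_mul, ← tsum_mul_left]
        congr 1
        funext b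
        rw [hup, hup, lp.coeFn_smul, Pi.smul_apply]
        exact (T b).toMultilinearMap.map_update_smul' _ _ _ _ }
  have hbd : ∀ m : Fin q → lp E 4, ‖T' m‖ ≤ C * ∏ i, ‖m i‖ := by
    apply multilinear_bound
    intro m hm
    obtain ⟨a, ha, hab, hC⟩ := hT m hm
    exact (tsum_of_norm_bounded ha.hasSum hab).trans hC
  exact ⟨T'.mkContinuous C hbd, fun m => (hsum m).hasSum⟩

theorem mul4_le (a b c d : ℝ) :
    a * b * c * d ≤ (a ^ 4 + b ^ 4 + c ^ 4 + d ^ 4) / 4 := by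
  nlinarith [sq_nonneg (a * b - c * d), sq_nonneg (a ^ 2 - b ^ 2), sq_nonneg (c ^ 2 - d ^ 2)]

theorem lp_quartic (T : ∀ b, ContinuousMultilinearMap ℝ (fun _ : Fin 4 => E b) ℝ) (C : ℝ)
    (hT : ∀ b, ‖T b‖ ≤ C) :
    ∃ L : ContinuousMultilinearMap ℝ (fun _ : Fin 4 => lp E 4) ℝ,
      ∀ m : Fin 4 → lp E 4, HasSum (fun b => T b (fun i => m i b)) (L m) := by
  have hC0 : 0 ≤ C := (norm_nonneg _).trans (hT 0)
  apply lp_poly T C
  intro m hm
  have hs := ((((hasSum4 (m 0)).add (hasSum4 (m 1))).add (hasSum4 (m 2))).add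
    (hasSum4 (m 3))).mul_left (C / 4)
  refine ⟨_, hs.summable, fun b => ?_, ?_⟩
  · refine ((T b).le_opNorm _).trans ?_
    rw [Fin.prod_univ_four]
    have h4 := mul4_le ‖m 0 b‖ ‖m 1 b‖ ‖m 2 b‖ ‖m 3 b‖
    calc ‖T b‖ * (‖m 0 b‖ * ‖m 1 b‖ * ‖m 2 b‖ * ‖m 3 b‖)
        ≤ C * ((‖m 0 b‖ ^ 4 + ‖m 1 b‖ ^ 4 + ‖m 2 b‖ ^ 4 + ‖m 3 b‖ ^ 4) / 4) :=
          mul_le_mul (hT b) h4 (by positivity) hC0
      _ = _ := by ring
  · rw [hs.tsum_eq]
    have h1 : ∀ i, ‖m i‖ ^ 4 ≤ 1 := fun i => pow_le_one₀ (norm_nonneg _) (hm i)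
    have := h1 0
    have := h1 1
    have := h1 2
    have := h1 3
    nlinarith

theorem lp_quadratic (T : ∀ b, ContinuousMultilinearMap ℝ (fun _ : Fin 2 => E b) ℝ) (m' : ℕ → ℝ)
    (hT : ∀ b, ‖T b‖ ≤ m' b) (hm' : Summable (fun b => m' b ^ 2)) :
    ∃ L : ContinuousMultilinearMap ℝ (fun _ : Fin 2 => lp E 4) ℝ,
      ∀ m : Fin 2 → lp E 4, HasSum (fun b => T b (fun i => m i b)) (L m) := by
  apply lp_poly T ((∑' b, m' b ^ 2) / 2 + 1)
  intro m hm
  have hs := (hm'.hasSum.div_const 2).add (((hasSum4 (m 0)).add (hasSum4 (m 1))).div_const 4)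
  refine ⟨_, hs.summable, fun b => ?_, ?_⟩
  · refine ((T b).le_opNorm _).trans ?_
    rw [Fin.prod_univ_two]
    have h0 : 0 ≤ m' b := (norm_nonneg _).trans (hT b)
    have h1 : ‖T b‖ * (‖m 0 b‖ * ‖m 1 b‖) ≤ m' b * (‖m 0 b‖ * ‖m 1 b‖) :=
      mul_le_mul_of_nonneg_right (hT b) (by positivity)
    refine h1.trans ?_
    nlinarith [sq_nonneg (m' b - ‖m 0 b‖ * ‖m 1 b‖), sq_nonneg (‖m 0 b‖ ^ 2 - ‖m 1 b‖ ^ 2)]
  · rw [hs.tsum_eq]
    have h1 : ∀ i, ‖m i‖ ^ 4 ≤ 1 := fun i => pow_le_one₀ (norm_nonneg _) (hm i)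
    have := h1 0
    have := h1 1
    linarith

theorem contDiff_diag {q : ℕ} {X : Type*} [NormedAddCommGroup X] [NormedSpace ℝ X]
    (L : ContinuousMultilinearMap ℝ (fun _ : Fin q => X) ℝ) (n : WithTop ℕ∞) :
    ContDiff ℝ n (fun x : X => L (fun _ => x)) :=
  L.contDiff.comp (contDiff_pi.2 fun _ => contDiff_id)

theorem lp_sum_smooth (k : ℕ)
    (L : ∀ b, ContinuousMultilinearMap ℝ (fun _ : Fin 4 => E b) ℝ) (C : ℝ) (hL : ∀ b, ‖L b‖ ≤ C)
    (M : ∀ b, ContinuousMultilinearMap ℝ (fun _ : Fin 2 => E b) ℝ) (m : ℕ → ℝ)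
    (hM : ∀ b, ‖M b‖ ≤ m b) (hm : Summable (fun b => m b ^ 2))
    (R : ∀ b, E b → ℝ) (hR : ∀ b, ContDiff ℝ (k : WithTop ℕ∞) (R b)) (u : ℕ → ℝ) (hu : Summable u)
    (hRu : ∀ b (i : ℕ) (v : E b), i ≤ k → ‖iteratedFDeriv ℝ i (R b) v‖ ≤ u b) :
    (∀ x : lp E 4, Summable (fun b => L b (fun _ => x b) + M b (fun _ => x b) + R b (x b))) ∧
    ContDiff ℝ (k : WithTop ℕ∞)
      (fun x : lp E 4 => ∑' b, (L b (fun _ => x b) + M b (fun _ => x b) + R b (x b))) := by
  obtain ⟨L', hL'⟩ := lp_quartic L C hL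
  obtain ⟨M', hM'⟩ := lp_quadratic M m hM hm
  have hRs : ∀ x : lp E 4, Summable (fun b => R b (x b)) := by
    intro x
    refine Summable.of_norm_bounded hu (fun b => ?_)
    have := hRu b 0 (x b) (Nat.zero_le _)
    rwa [norm_iteratedFDeriv_zero] at this
  have hRC : ContDiff ℝ (k : WithTop ℕ∞) (fun x : lp E 4 => ∑' b, R b (x b)) := by
    have hk : ((k : ℕ∞) : WithTop ℕ∞) = (k : WithTop ℕ∞) := by rfl
    rw [← hk]
    have hproj : ∀ b, ‖lp.evalCLM ℝ E 4 b‖ ≤ 1 := by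
      intro b
      refine ContinuousLinearMap.opNorm_le_bound _ zero_le_one fun x => ?_
      rw [one_mul]
      exact lp.norm_apply_le_norm (by norm_num) x b
    refine contDiff_tsum (f := fun b (x : lp E 4) => R b (x b)) (v := fun _ => u) ?_ ?_ ?_
    · intro b
      rw [hk]
      exact (hR b).comp (lp.evalCLM ℝ E 4 b).contDiff
    · intro i _
      exact hu
    · intro i b x hi
      have hi' : i ≤ k := by exact_mod_cast hi
      have h1 : (fun x : lp E 4 => R b (x b)) = R b ∘ (lp.evalCLM ℝ E 4 b) := rfl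
      rw [h1, ContinuousLinearMap.iteratedFDeriv_comp_right (lp.evalCLM ℝ E 4 b) (hR b) x
        (by exact_mod_cast hi')]
      refine (ContinuousMultilinearMap.norm_compContinuousLinearMap_le _ _).trans ?_
      have h2 : ∏ _i : Fin i, ‖lp.evalCLM ℝ E 4 b‖ ≤ 1 :=
        Finset.prod_le_one (fun _ _ => norm_nonneg _) fun _ _ => hproj b
      have h3 := hRu b i (lp.evalCLM ℝ E 4 b x) hi'
      calc _ ≤ ‖iteratedFDeriv ℝ i (R b) (lp.evalCLM ℝ E 4 b x)‖ * 1 :=
            mul_le_mul_of_nonneg_left h2 (norm_nonneg _)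
        _ ≤ u b := by rw [mul_one]; exact h3
  have hx : ∀ x : lp E 4, HasSum (fun b => L b (fun _ => x b) + M b (fun _ => x b) + R b (x b))
      (L' (fun _ => x) + M' (fun _ => x) + ∑' b, R b (x b)) := by
    intro x
    exact ((hL' (fun _ => x)).add (hM' (fun _ => x))).add (hRs x).hasSum
  refine ⟨fun x => (hx x).summable, ?_⟩
  have e : (fun x : lp E 4 => ∑' b, (L b (fun _ => x b) + M b (fun _ => x b) + R b (x b))) =
      fun x => L' (fun _ => x) + M' (fun _ => x) + ∑' b, R b (x b) := by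
    funext x
    exact (hx x).tsum_eq
  rw [e]
  exact ((contDiff_diag L' _).add (contDiff_diag M' _)).add hRC

theorem lp_smooth_norm [∀ b, CompleteSpace (E b)] (k : ℕ) (hk : 1 ≤ k)
    (L : ∀ b, ContinuousMultilinearMap ℝ (fun _ : Fin 4 => E b) ℝ) (C : ℝ) (hL : ∀ b, ‖L b‖ ≤ C)
    (M : ∀ b, ContinuousMultilinearMap ℝ (fun _ : Fin 2 => E b) ℝ) (m : ℕ → ℝ)
    (hM : ∀ b, ‖M b‖ ≤ m b) (hm : Summable (fun b => m b ^ 2))
    (R : ∀ b, E b → ℝ) (hR : ∀ b, ContDiff ℝ (k : WithTop ℕ∞) (R b)) (u : ℕ → ℝ) (hu : Summable u)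
    (hRu : ∀ b (i : ℕ) (v : E b), i ≤ k → ‖iteratedFDeriv ℝ i (R b) v‖ ≤ u b)
    (f : ∀ b, E b → ℝ) (hf : ∀ b v, f b v = L b (fun _ => v) + M b (fun _ => v) + R b v)
    (heven : ∀ b v, f b (-v) = f b v) (h0 : ∀ b, f b 0 = 0) (hlow : ∀ b v, ‖v‖ ^ 4 ≤ f b v)
    (ρ : ℝ) (hρ : 0 < ρ) (hconv : ∀ b, ConvexOn ℝ (Metric.closedBall 0 ρ) (f b)) :
    ∃ N : lp E 4 → ℝ,
        (∀ x y : lp E 4, N (x + y) ≤ N x + N y) ∧
        (∀ (t : ℝ) (x : lp E 4), N (t • x) = |t| * N x) ∧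
        (∃ c C : ℝ, 0 < c ∧ ∀ x : lp E 4, c * ‖x‖ ≤ N x ∧ N x ≤ C * ‖x‖) ∧
        ContDiffOn ℝ (k : WithTop ℕ∞) N {x : lp E 4 | x ≠ 0} := by
  obtain ⟨hsum, hC⟩ := lp_sum_smooth k L C hL M m hM hm R hR u hu hRu
  simp_rw [← hf] at hsum hC
  set Φ : lp E 4 → ℝ := fun x => ∑' b, f b (x b) with hΦ
  refine gauge_smooth Φ k hk ρ (ρ ^ 4 / 2) hρ (by positivity) (by
    have : 0 < ρ ^ 4 := by positivity
    linarith) hC ?_ ?_ ?_ ?_
  · intro x
    simp only [hΦ]
    congr 1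
    funext b
    rw [lp.coeFn_neg, Pi.neg_apply, heven]
  · simp only [hΦ]
    have : ∀ b, f b ((0 : lp E 4) b) = 0 := fun b => by
      rw [lp.coeFn_zero, Pi.zero_apply, h0]
    simp_rw [this]
    exact tsum_zero
  · refine ⟨convex_closedBall _ _, ?_⟩
    intro x hx y hy s t hs ht hst
    have hxb : ∀ b, x b ∈ Metric.closedBall (0 : E b) ρ := fun b => by
      rw [mem_closedBall_zero_iff] at hx ⊢
      exact (lp.norm_apply_le_norm (by norm_num) x b).trans hx
    have hyb : ∀ b, y b ∈ Metric.closedBall (0 : E b) ρ := fun b => by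
      rw [mem_closedBall_zero_iff] at hy ⊢
      exact (lp.norm_apply_le_norm (by norm_num) y b).trans hy
    simp only [hΦ]
    have h1 : ∀ b, f b ((s • x + t • y : lp E 4) b) ≤ s * f b (x b) + t * f b (y b) := by
      intro b
      rw [lp.coeFn_add, Pi.add_apply, lp.coeFn_smul, lp.coeFn_smul, Pi.smul_apply, Pi.smul_apply]
      exact (hconv b).2 (hxb b) (hyb b) hs ht hst
    have h2 := ((hsum x).mul_left s).add ((hsum y).mul_left t)
    calc ∑' b, f b ((s • x + t • y : lp E 4) b)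
        ≤ ∑' b, (s * f b (x b) + t * f b (y b)) := Summable.tsum_le_tsum h1 (hsum _) h2
      _ = _ := by
        rw [((hsum x).mul_left s).tsum_add ((hsum y).mul_left t), tsum_mul_left, tsum_mul_left]
        rfl
  · intro x
    rw [← (hasSum4 x).tsum_eq]
    exact Summable.tsum_le_tsum (fun b => hlow b (x b)) (hasSum4 x).summable (hsum x)

end Pool.Agent.Helper23.PZ
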